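import Mathlib

/-! # Sums of squares of gaps: deterministic identities -/

set_option autoImplicit false
set_option linter.unusedSectionVars false

open Filter Finset
open scoped Topology

namespace Pool.Agent.J6H15.SQ

open Classical in
/-- the distance to the last element (`0` counts as an element) -/
noncomputable def ag (T : Set ℕ) : ℕ → ℕ
  | 0 => 0
  | n + 1 => if n + 1 ∈ T then 0 else ag T n + 1

open Classical in
/-- the sum of the squares of the gaps, with `0` as the first element -/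
noncomputable def Q (T : Set ℕ) (x : ℕ) : ℝ := ∑ n ∈ range x, if n + 1 ∈ T then ((ag T n : ℝ) + 1) ^ 2 else 0

lemma ag_spec (T : Set ℕ) (n : ℕ) : ag T n ≤ n ∧ (n - ag T n = 0 ∨ n - ag T n ∈ T) ∧
    ∀ j, n - ag T n < j → j ≤ n → j ∉ T := by
  induction n with
  | zero => exact ⟨le_rfl, Or.inl rfl, fun j h1 h2 => by omega⟩
  | succ n ih =>
    obtain ⟨h1, h2, h3⟩ := ih
    by_cases h : n + 1 ∈ T
    · have e : ag T (n + 1) = 0 := by
        simp [ag, h]
      rw [e]
      exact ⟨by omega, Or.inr (by simpa using h), fun j h4 h5 => by omega⟩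
    · have e : ag T (n + 1) = ag T n + 1 := by
        simp [ag, h]
      have e2 : n + 1 - ag T (n + 1) = n - ag T n := by omega
      rw [e2]
      refine ⟨by omega, h2, fun j h4 h5 => ?_⟩
      rcases Nat.lt_or_ge n j with h6 | h6
      · have : j = n + 1 := by omega
        rw [this]
        exact h
      · exact h3 j h4 h6

open Classical in
lemma sum_first (T : Set ℕ) (x : ℕ) :
    ∑ n ∈ range x, (if n + 1 ∈ T then ((ag T n : ℝ) + 1) else 0) + ag T x = x := by
  induction x with
  | zero => simp [ag]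
  | succ x ih =>
    rw [sum_range_succ]
    by_cases h : x + 1 ∈ T
    · have e : ag T (x + 1) = 0 := by simp [ag, h]
      rw [e, if_pos h]
      push_cast
      linarith
    · have e : ag T (x + 1) = ag T x + 1 := by simp [ag, h]
      rw [e, if_neg h]
      push_cast
      linarith

lemma sum_sq (T : Set ℕ) (x : ℕ) :
    ∑ n ∈ range x, (2 * (ag T n : ℝ) + 1) = Q T x + (ag T x : ℝ) ^ 2 := by
  classical
  induction x with
  | zero => simp [ag, Q]
  | succ x ih =>
    have hQ : Q T (x + 1) = Q T x + if x + 1 ∈ T then ((ag T x : ℝ) + 1) ^ 2 else 0 := by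
      unfold Q
      rw [sum_range_succ]
    rw [sum_range_succ, ih, hQ]
    by_cases h : x + 1 ∈ T
    · have e : ag T (x + 1) = 0 := by simp [ag, h]
      rw [e, if_pos h]
      push_cast
      ring
    · have e : ag T (x + 1) = ag T x + 1 := by simp [ag, h]
      rw [e, if_neg h]
      push_cast
      ring

/-- partial summation -/
lemma abel (c : ℕ → ℝ) (s g : ℕ) : ∑ i ∈ range g, c (s + i + 1) * ((i : ℝ) + 1) =
    g * ∑ t ∈ Ioc s (s + g), c t - ∑ i ∈ range g, ∑ t ∈ Ioc s (s + i), c t := by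
  induction g with
  | zero => simp
  | succ g ih =>
    rw [sum_range_succ, ih, sum_range_succ]
    have h1 : ∑ t ∈ Ioc s (s + (g + 1)), c t = ∑ t ∈ Ioc s (s + g), c t + c (s + g + 1) := by
      rw [show s + (g + 1) = (s + g) + 1 by ring, Finset.sum_Ioc_succ_top (by omega)]
    rw [h1]
    push_cast
    ring

lemma abel_le (c : ℕ → ℝ) (s g : ℕ) (η R : ℝ) (hη : 0 ≤ η)
    (h : ∀ i, i ≤ g → |∑ t ∈ Ioc s (s + i), c t| ≤ η * i + R) :
    |∑ i ∈ range g, c (s + i + 1) * ((i : ℝ) + 1)| ≤ 2 * g * (η * g + R) := by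
  rw [abel]
  have h1 : |(g : ℝ) * ∑ t ∈ Ioc s (s + g), c t| ≤ g * (η * g + R) := by
    rw [abs_mul, abs_of_nonneg (Nat.cast_nonneg g)]
    exact mul_le_mul_of_nonneg_left (h g le_rfl) (Nat.cast_nonneg g)
  have h2 : |∑ i ∈ range g, ∑ t ∈ Ioc s (s + i), c t| ≤ g * (η * g + R) := by
    refine (abs_sum_le_sum_abs _ _).trans ?_
    calc ∑ i ∈ range g, |∑ t ∈ Ioc s (s + i), c t| ≤ ∑ i ∈ range g, (η * g + R) := by
          apply sum_le_sum
          intro i hi
          rw [mem_range] at hi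
          refine (h i hi.le).trans ?_
          have : (i : ℝ) ≤ g := by exact_mod_cast hi.le
          have := mul_le_mul_of_nonneg_left this hη
          linarith
      _ = _ := by rw [sum_const, card_range, nsmul_eq_mul]
  calc |_ - _| ≤ |(g : ℝ) * ∑ t ∈ Ioc s (s + g), c t| + |∑ i ∈ range g, ∑ t ∈ Ioc s (s + i), c t| := abs_sub _ _
    _ ≤ g * (η * g + R) + g * (η * g + R) := add_le_add h1 h2
    _ = _ := by ring

/-- the sum over the current run -/
noncomputable def J (T : Set ℕ) (c : ℕ → ℝ) (x : ℕ) : ℝ :=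
  ∑ i ∈ range (ag T x), c (x - ag T x + i + 1) * ((i : ℝ) + 1)

lemma run_sum (T : Set ℕ) (c : ℕ → ℝ) (x : ℕ) :
    J T c x + c (x + 1) * ((ag T x : ℝ) + 1) =
      ∑ i ∈ range (ag T x + 1), c (x - ag T x + i + 1) * ((i : ℝ) + 1) := by
  have h := (ag_spec T x).1
  rw [sum_range_succ]
  unfold J
  rw [show x - ag T x + ag T x + 1 = x + 1 by omega]

theorem runs (T : Set ℕ) (c : ℕ → ℝ) (η R : ℝ) (hη : 0 ≤ η) (X : ℕ)
    (h : ∀ m i, m + i ≤ X → |∑ t ∈ Ioc m (m + i), c t| ≤ η * i + R) : ∀ x ≤ X,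
    |∑ n ∈ range x, c (n + 1) * ((ag T n : ℝ) + 1) - J T c x| ≤ 2 * η * Q T x + 2 * R * ((x : ℝ) - ag T x) := by
  classical
  intro x
  induction x with
  | zero =>
    intro _
    simp [ag, Q, J]
  | succ x ih =>
    intro hx
    have h0 := ih (by omega)
    have hle := (ag_spec T x).1
    have hQ : Q T (x + 1) = Q T x + if x + 1 ∈ T then ((ag T x : ℝ) + 1) ^ 2 else 0 := by
      unfold Q
      rw [sum_range_succ]
    rw [sum_range_succ, hQ]
    have hrs := run_sum T c x
    by_cases hT : x + 1 ∈ T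
    · have e : ag T (x + 1) = 0 := by simp [ag, hT]
      have eJ : J T c (x + 1) = 0 := by
        unfold J
        rw [e]
        simp
      rw [eJ, e, if_pos hT]
      have h1 := abel_le c (x - ag T x) (ag T x + 1) η R hη (fun i hi => h _ _ (by omega))
      rw [← hrs] at h1
      push_cast at h1 ⊢
      have e2 : ∑ n ∈ range x, c (n + 1) * ((ag T n : ℝ) + 1) + c (x + 1) * ((ag T x : ℝ) + 1) - 0 =
          (∑ n ∈ range x, c (n + 1) * ((ag T n : ℝ) + 1) - J T c x) +
            (J T c x + c (x + 1) * ((ag T x : ℝ) + 1)) := by ring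
      rw [e2]
      refine (abs_add_le _ _).trans ?_
      nlinarith
    · have e : ag T (x + 1) = ag T x + 1 := by simp [ag, hT]
      have eJ : J T c (x + 1) = J T c x + c (x + 1) * ((ag T x : ℝ) + 1) := by
        rw [hrs]
        unfold J
        rw [e, show x + 1 - (ag T x + 1) = x - ag T x by omega]
      rw [eJ, e, if_neg hT]
      push_cast
      have e2 : ∑ n ∈ range x, c (n + 1) * ((ag T n : ℝ) + 1) + c (x + 1) * ((ag T x : ℝ) + 1) -
          (J T c x + c (x + 1) * ((ag T x : ℝ) + 1)) =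
          ∑ n ∈ range x, c (n + 1) * ((ag T n : ℝ) + 1) - J T c x := by ring
      rw [e2]
      refine h0.trans (le_of_eq ?_)
      ring

lemma J_le (T : Set ℕ) (c : ℕ → ℝ) (η R : ℝ) (hη : 0 ≤ η) (x : ℕ)
    (h : ∀ m i, m + i ≤ x → |∑ t ∈ Ioc m (m + i), c t| ≤ η * i + R) :
    |J T c x| ≤ 2 * ag T x * (η * ag T x + R) := by
  have hle := (ag_spec T x).1
  exact abel_le c (x - ag T x) (ag T x) η R hη (fun i hi => h _ _ (by omega))

end Pool.Agent.J6H15.SQ
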