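import Mathlib
import Pool.Agent.J6H15.SQ.Prob

/-! # The sum of the squares of the gaps -/

set_option autoImplicit false
set_option linter.unusedSectionVars false

open MeasureTheory Filter Finset
open scoped ENNReal Topology

namespace Pool.Agent.J6H15.SQ

open Pool.Agent.R528.RM
open Pool.Agent.J6H15.SM
open Pool.Agent.J6H13.UM

/-- passing from the conditional densities to the profile -/
lemma to_rho (a d ρ : ℕ → ℝ) (ha : ∀ n, 0 ≤ a n) (hρ : ∀ n, 0 ≤ ρ n)
    (hd : ∀ ε : ℝ, 0 < ε → ∀ᶠ n : ℕ in atTop, |d n - ρ n| ≤ ε * ρ n)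
    (h : Tendsto (fun x : ℕ => (∑ n ∈ range x, d n * a n) / x) atTop (𝓝 1)) :
    Tendsto (fun x : ℕ => (∑ n ∈ range x, ρ n * a n) / x) atTop (𝓝 1) := by
  rw [Metric.tendsto_nhds] at h ⊢
  intro e he
  obtain ⟨ε, hε⟩ : ∃ ε : ℝ, ε = min (1 / 2) (e / 16) := ⟨_, rfl⟩
  have hε0 : 0 < ε := by rw [hε]; exact lt_min (by norm_num) (by positivity)
  have hε1 : ε ≤ 1 / 2 := by rw [hε]; exact min_le_left _ _
  have hε2 : ε ≤ e / 16 := by rw [hε]; exact min_le_right _ _
  obtain ⟨N, hN⟩ := eventually_atTop.1 (hd ε hε0)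
  obtain ⟨K, hK⟩ : ∃ K : ℝ, K = ∑ n ∈ range N, |d n - ρ n| * a n := ⟨_, rfl⟩
  have hK0 : 0 ≤ K := by
    rw [hK]
    exact sum_nonneg fun n _ => mul_nonneg (abs_nonneg _) (ha n)
  filter_upwards [h ε hε0, eventually_ge_atTop N, eventually_ge_atTop 1,
    tendsto_natCast_atTop_atTop.eventually_ge_atTop (K / ε)] with x h1 h2 h3 h4
  have hx0 : (0 : ℝ) < x := by exact_mod_cast h3
  rw [div_le_iff₀ hε0] at h4
  obtain ⟨D, hD⟩ : ∃ D : ℝ, D = ∑ n ∈ range x, d n * a n := ⟨_, rfl⟩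
  obtain ⟨R, hR⟩ : ∃ R : ℝ, R = ∑ n ∈ range x, ρ n * a n := ⟨_, rfl⟩
  rw [← hD] at h1
  rw [← hR]
  have hR0 : 0 ≤ R := by
    rw [hR]
    exact sum_nonneg fun n _ => mul_nonneg (hρ n) (ha n)
  have h5 : |D - R| ≤ K + ε * R := by
    rw [hD, hR, ← sum_sub_distrib]
    refine (abs_sum_le_sum_abs _ _).trans ?_
    have h6 : ∀ n ∈ range x, |d n * a n - ρ n * a n| ≤ (if n < N then |d n - ρ n| * a n else 0) + ε * (ρ n * a n) := by
      intro n _
      rw [← sub_mul, abs_mul, abs_of_nonneg (ha n)]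
      split_ifs with h7
      · have : 0 ≤ ε * (ρ n * a n) := mul_nonneg hε0.le (mul_nonneg (hρ n) (ha n))
        linarith
      · have := mul_le_mul_of_nonneg_right (hN n (by omega)) (ha n)
        linarith
    refine (sum_le_sum h6).trans ?_
    rw [sum_add_distrib, ← mul_sum]
    have h7 : ∑ n ∈ range x, (if n < N then |d n - ρ n| * a n else 0) = K := by
      rw [← sum_filter, hK]
      congr 1
      ext n
      rw [mem_filter, mem_range, mem_range]
      omega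
    rw [h7]
  rw [Real.dist_eq] at h1 ⊢
  have h6 : |D - x| < ε * x := by
    have e1 : D / x - 1 = (D - x) / x := by field_simp
    rw [e1, abs_div, abs_of_pos hx0, div_lt_iff₀ hx0] at h1
    exact h1
  have e1 : R / x - 1 = (R - x) / x := by field_simp
  rw [e1, abs_div, abs_of_pos hx0, div_lt_iff₀ hx0]
  obtain ⟨g1, g2⟩ := abs_le.1 h5
  obtain ⟨g3, g4⟩ := abs_lt.1 h6
  have hR4 : R ≤ 4 * x := by nlinarith
  have h8 : ε * R ≤ 4 * (ε * x) := by nlinarith
  have h9 : ε * x ≤ e / 16 * x := by gcongr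
  rw [abs_lt]
  constructor <;> nlinarith

set_option maxHeartbeats 2000000 in
/-- multiplication by the logarithm -/
lemma to_log (a ρ : ℕ → ℝ) (ha : ∀ n, 0 ≤ a n) (hρ : ∀ n, 0 ≤ ρ n)
    (h : Tendsto (fun x : ℕ => (∑ n ∈ range x, ρ n * a n) / x) atTop (𝓝 1)) :
    Tendsto (fun x : ℕ => (∑ n ∈ range x, ρ n * Real.log ((n : ℝ) + 1) * a n) / (x * Real.log x)) atTop (𝓝 1) := by
  rw [Metric.tendsto_nhds] at h ⊢
  intro e he
  obtain ⟨δ, hδ⟩ : ∃ δ : ℝ, δ = min (1 / 2) (e / 16) := ⟨_, rfl⟩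
  have hδ0 : 0 < δ := by rw [hδ]; exact lt_min (by norm_num) (by positivity)
  have hδ1 : δ ≤ 1 / 2 := by rw [hδ]; exact min_le_left _ _
  have hδ2 : δ ≤ e / 16 := by rw [hδ]; exact min_le_right _ _
  obtain ⟨N, hN⟩ := eventually_atTop.1 (h δ hδ0)
  have hRx : ∀ x : ℕ, N ≤ x → 0 < x → |∑ n ∈ range x, ρ n * a n - x| < δ * x := by
    intro x h1 h2
    have hx0 : (0 : ℝ) < x := by exact_mod_cast h2
    have h3 := hN x h1
    rw [Real.dist_eq] at h3
    have e1 : (∑ n ∈ range x, ρ n * a n) / x - 1 = (∑ n ∈ range x, ρ n * a n - x) / x := by field_simp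
    rw [e1, abs_div, abs_of_pos hx0, div_lt_iff₀ hx0] at h3
    exact h3
  filter_upwards [tendsto_natCast_atTop_atTop.eventually_ge_atTop ((N + 2 : ℝ) / δ), eventually_ge_atTop 2,
    eventually_ge_atTop N, logN'.eventually_ge_atTop (max 1 (Real.log (2 / δ) / δ))] with x h1 h2 h3 h4
  have hx0 : (0 : ℝ) < x := by
    have : 0 < x := by omega
    exact_mod_cast this
  have hl1 : 1 ≤ Real.log (x : ℝ) := (le_max_left _ _).trans h4
  have hl2 : Real.log (2 / δ) / δ ≤ Real.log (x : ℝ) := (le_max_right _ _).trans h4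
  rw [div_le_iff₀ hδ0] at h1 hl2
  obtain ⟨y, hy⟩ : ∃ y : ℕ, y = ⌊δ * x⌋₊ := ⟨_, rfl⟩
  have hy1 : (y : ℝ) ≤ δ * x := by
    rw [hy]
    exact Nat.floor_le (by positivity)
  have hy2 : δ * x - 1 < y := by
    rw [hy]
    exact Nat.sub_one_lt_floor _
  have hyN : (N : ℝ) + 1 ≤ y := by
    have : (N : ℝ) + 2 ≤ δ * x := by linarith
    linarith
  have hyN' : N + 1 ≤ y := by exact_mod_cast hyN
  have hy0 : (0 : ℝ) < y := by
    have : (0 : ℝ) ≤ N := Nat.cast_nonneg N
    linarith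
  have hyx : y ≤ x := by
    have : (y : ℝ) ≤ x := by nlinarith
    exact_mod_cast this
  have hRX := abs_lt.1 (hRx x h3 (by omega))
  have hRY := abs_lt.1 (hRx y (by omega) (by omega))
  obtain ⟨R, hR⟩ : ∃ R : ℝ, R = ∑ n ∈ range x, ρ n * a n := ⟨_, rfl⟩
  obtain ⟨Ry, hRy⟩ : ∃ R : ℝ, R = ∑ n ∈ range y, ρ n * a n := ⟨_, rfl⟩
  rw [← hR] at hRX
  rw [← hRy] at hRY
  obtain ⟨U, hU⟩ : ∃ U : ℝ, U = ∑ n ∈ range x, ρ n * Real.log ((n : ℝ) + 1) * a n := ⟨_, rfl⟩
  rw [← hU]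
  have hup : U ≤ Real.log x * R := by
    rw [hU, hR, mul_sum]
    apply sum_le_sum
    intro n hn
    rw [mem_range] at hn
    have h5 : Real.log ((n : ℝ) + 1) ≤ Real.log x := by
      apply Real.log_le_log (by positivity)
      exact_mod_cast hn
    have h6 : 0 ≤ ρ n * a n := mul_nonneg (hρ n) (ha n)
    nlinarith
  have hlo : Real.log y * (R - Ry) ≤ U := by
    have h5 : R - Ry = ∑ n ∈ Ico y x, ρ n * a n := by
      rw [hR, hRy, sub_eq_iff_eq_add, add_comm]
      exact (sum_range_add_sum_Ico _ hyx).symm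
    have h6 : ∑ n ∈ Ico y x, ρ n * Real.log ((n : ℝ) + 1) * a n ≤ U := by
      rw [hU]
      apply sum_le_sum_of_subset_of_nonneg
      · intro n hn
        rw [mem_Ico] at hn
        rw [mem_range]
        exact hn.2
      · intro n _ _
        have : 0 ≤ Real.log ((n : ℝ) + 1) := Real.log_nonneg (by
          have : (0 : ℝ) ≤ n := Nat.cast_nonneg n
          linarith)
        have := mul_nonneg (hρ n) this
        exact mul_nonneg this (ha n)
    refine le_trans ?_ h6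
    rw [h5, mul_sum]
    apply sum_le_sum
    intro n hn
    rw [mem_Ico] at hn
    have h7 : Real.log (y : ℝ) ≤ Real.log ((n : ℝ) + 1) := by
      apply Real.log_le_log hy0
      exact_mod_cast (by omega : y ≤ n + 1)
    have h8 : 0 ≤ ρ n * a n := mul_nonneg (hρ n) (ha n)
    nlinarith
  have hlogy : (1 - δ) * Real.log x ≤ Real.log y := by
    have h5 : δ / 2 * x ≤ y := by
      have : (2 : ℝ) ≤ δ * x := by
        have : (0 : ℝ) ≤ N := Nat.cast_nonneg N
        linarith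
      linarith
    have h6 : Real.log (δ / 2 * x) ≤ Real.log y := Real.log_le_log (by positivity) h5
    rw [Real.log_mul (by positivity) hx0.ne'] at h6
    have h7 : Real.log (δ / 2) = - Real.log (2 / δ) := by
      rw [← Real.log_inv, inv_div]
    rw [h7] at h6
    nlinarith
  obtain ⟨l, hl⟩ : ∃ l : ℝ, l = Real.log x := ⟨_, rfl⟩
  rw [← hl] at hl1 hup hlogy ⊢
  have hl0 : 0 < l := by linarith
  have hxl : 0 < x * l := by positivity
  have e1 : U / (x * l) - 1 = (U - x * l) / (x * l) := by field_simp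
  rw [Real.dist_eq, e1, abs_div, abs_of_pos hxl, div_lt_iff₀ hxl]
  have hup2 : U ≤ (1 + δ) * (x * l) := by
    refine hup.trans ?_
    have : R ≤ (1 + δ) * x := by linarith
    nlinarith
  have hRR : (1 - δ - 2 * δ) * x ≤ R - Ry := by
    have h5 : Ry ≤ (1 + δ) * y := by linarith
    have h6 : (1 + δ) * (y : ℝ) ≤ 2 * (δ * x) := by nlinarith
    linarith
  have hRR0 : 0 ≤ R - Ry := by
    have h5 : R - Ry = ∑ n ∈ Ico y x, ρ n * a n := by
      rw [hR, hRy, sub_eq_iff_eq_add, add_comm]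
      exact (sum_range_add_sum_Ico _ hyx).symm
    rw [h5]
    exact sum_nonneg fun n _ => mul_nonneg (hρ n) (ha n)
  have hlo2 : (1 - 4 * δ) * (x * l) ≤ U := by
    refine le_trans ?_ hlo
    have h5 : (1 - δ) * l * (R - Ry) ≤ Real.log y * (R - Ry) := by gcongr
    refine le_trans ?_ h5
    have h6 : (1 - δ) * l * ((1 - δ - 2 * δ) * x) ≤ (1 - δ) * l * (R - Ry) := by
      have : 0 ≤ (1 - δ) * l := mul_nonneg (by linarith) hl0.le
      exact mul_le_mul_of_nonneg_left hRR this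
    refine le_trans ?_ h6
    have h7 : (1 - δ) * l * ((1 - δ - 2 * δ) * x) = (1 - 4 * δ + 3 * δ ^ 2) * (x * l) := by ring
    rw [h7]
    have : 0 ≤ 3 * δ ^ 2 * (x * l) := by positivity
    linarith
  have h9 : δ * (x * l) ≤ e / 16 * (x * l) := by gcongr
  rw [abs_lt]
  constructor <;> nlinarith

end Pool.Agent.J6H15.SQ
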