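import Mathlib
import Pool.Agent.J6H15.SQ.Fin

/-! # The sum of the squares of the gaps in sequential random models -/

set_option autoImplicit false
set_option linter.unusedSectionVars false

open MeasureTheory Filter Finset
open scoped ENNReal Topology

namespace Pool.Agent.J6H15.SQ

open Pool.Agent.R528.RM
open Pool.Agent.J6H15.SM
open Pool.Agent.J6H13.UM

lemma cc1 (K ε : ℝ) (B : ℕ) (hε : 0 < ε) (hεB : ε * B ≤ 1 / 2) (hK : 0 ≤ K) :
    ∀ᶠ x : ℝ in atTop, K * (x ^ ε + 1) ^ B ≤ x := by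
  filter_upwards [eventually_ge_atTop (max 1 ((K * 2 ^ B) ^ 2))] with x hx
  have hx1 : 1 ≤ x := (le_max_left _ _).trans hx
  have hx2 : (K * 2 ^ B) ^ 2 ≤ x := (le_max_right _ _).trans hx
  have h1 : 1 ≤ x ^ ε := Real.one_le_rpow hx1 hε.le
  calc K * (x ^ ε + 1) ^ B ≤ K * (2 * x ^ ε) ^ B := by
        gcongr
        linarith
    _ = (K * 2 ^ B) * x ^ (ε * B) := by
        rw [mul_pow, ← Real.rpow_natCast (x ^ ε), ← Real.rpow_mul (by linarith)]
        ring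
    _ ≤ (K * 2 ^ B) * x ^ (1 / 2 : ℝ) := by gcongr
    _ = (K * 2 ^ B) * √x := by rw [Real.sqrt_eq_rpow]
    _ ≤ √x * √x := by
        gcongr
        rw [← Real.sqrt_sq (show 0 ≤ K * 2 ^ B by positivity)]
        exact Real.sqrt_le_sqrt hx2
    _ = x := Real.mul_self_sqrt (by linarith)

set_option maxHeartbeats 4000000 in
/-- the deterministic part -/
theorem det_sq (T : Set ℕ) (P : Set ℕ) (z : ℕ → ℕ) (hm : Monotone z)
    (hz : ∀ δ : ℝ, 0 < δ → ∀ᶠ n : ℕ in atTop, (z n : ℝ) ≤ Real.log n ^ δ)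
    (hV : ∀ᶠ n : ℕ in atTop, W P (z n) / Real.log n < 1)
    (hag : ∃ K0 : ℝ, ∀ n : ℕ, (ag T n : ℝ) ≤ 2 * Real.log n ^ 2 + K0)
    (h : Tendsto (fun x : ℕ => (∑ n ∈ range x, rho1 P z (n + 1) * Real.log ((n : ℝ) + 1) * ((ag T n : ℝ) + 1)) /
      (x * Real.log x)) atTop (𝓝 1)) :
    Tendsto (fun x : ℕ => Q T x / (x * Real.log x)) atTop (𝓝 2) := by
  classical
  -- the sum with the weights
  have hW : Tendsto (fun x : ℕ => (∑ n ∈ range x, wt P z (n + 1) * ((ag T n : ℝ) + 1)) / (x * Real.log x))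
      atTop (𝓝 1) := by
    obtain ⟨N, hN⟩ := eventually_atTop.1 (hV.and (logN'.eventually_gt_atTop 0))
    obtain ⟨K, hK⟩ : ∃ K : ℝ, K = ∑ n ∈ range N, (wt P z (n + 1) * ((ag T n : ℝ) + 1) -
      rho1 P z (n + 1) * Real.log ((n : ℝ) + 1) * ((ag T n : ℝ) + 1)) := ⟨_, rfl⟩
    have hden : Tendsto (fun x : ℕ => (x : ℝ) * Real.log x) atTop atTop :=
      tendsto_natCast_atTop_atTop.atTop_mul_atTop₀ logN'
    have h1 : Tendsto (fun x : ℕ => K / ((x : ℝ) * Real.log x)) atTop (𝓝 0) := tendsto_const_nhds.div_atTop hden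
    have h2 := h.add h1
    rw [add_zero] at h2
    refine h2.congr' ?_
    filter_upwards [eventually_ge_atTop N] with x hx
    rw [← add_div]
    congr 1
    rw [hK]
    have h3 : ∑ n ∈ range N, (wt P z (n + 1) * ((ag T n : ℝ) + 1) -
      rho1 P z (n + 1) * Real.log ((n : ℝ) + 1) * ((ag T n : ℝ) + 1)) =
      ∑ n ∈ range x, (wt P z (n + 1) * ((ag T n : ℝ) + 1) -
      rho1 P z (n + 1) * Real.log ((n : ℝ) + 1) * ((ag T n : ℝ) + 1)) := by
      apply sum_subset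
      · intro n hn
        rw [mem_range] at hn ⊢
        omega
      · intro n _ hn
        rw [mem_range, not_lt] at hn
        obtain ⟨h4, h5⟩ := hN (n + 1) (by omega)
        rw [rho1_wt P z (n + 1) h4]
        push_cast at h5 ⊢
        field_simp
        ring
    rw [h3, sum_sub_distrib]
    ring
  rw [Metric.tendsto_nhds]
  intro e he
  obtain ⟨δ, hδ⟩ : ∃ δ : ℝ, δ = min (1 / 16) (e / 64) := ⟨_, rfl⟩
  have hδ0 : 0 < δ := by rw [hδ]; exact lt_min (by norm_num) (by positivity)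
  have hδ1 : δ ≤ 1 / 16 := by rw [hδ]; exact min_le_left _ _
  have hδ2 : δ ≤ e / 64 := by rw [hδ]; exact min_le_right _ _
  obtain ⟨K, B, hK, HB⟩ := block_sum δ hδ0
  obtain ⟨ε, hεdef⟩ : ∃ ε : ℝ, ε = 1 / (2 * ((B : ℝ) + 1)) := ⟨_, rfl⟩
  have hε : 0 < ε := by rw [hεdef]; positivity
  have hεB : ε * B ≤ 1 / 2 := by
    rw [hεdef, div_mul_eq_mul_div, div_le_div_iff₀ (by positivity) (by norm_num)]
    linarith
  obtain ⟨K0, hK0⟩ := hag
  have hagx : ∀ᶠ x : ℕ in atTop, (ag T x : ℝ) ≤ √(x : ℝ) := by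
    have h1 := (isLittleO_log_rpow_rpow_atTop (2 : ℝ) (show (0 : ℝ) < 1 / 2 by norm_num)).bound
      (show (0 : ℝ) < 1 / 4 by norm_num)
    filter_upwards [tendsto_natCast_atTop_atTop.eventually h1, logN'.eventually_ge_atTop 1,
      tendsto_natCast_atTop_atTop.eventually_ge_atTop ((2 * |K0|) ^ 2)] with x h2 h3 h4
    rw [Real.norm_eq_abs, Real.norm_eq_abs, abs_of_nonneg (Real.rpow_nonneg (by linarith) _),
      abs_of_nonneg (Real.rpow_nonneg (Nat.cast_nonneg x) _), show (2 : ℝ) = ((2 : ℕ) : ℝ) by norm_num,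
      Real.rpow_natCast] at h2
    have e1 : ((x : ℝ)) ^ (1 / ((2 : ℕ) : ℝ)) = √(x : ℝ) := by
      rw [Real.sqrt_eq_rpow]
      norm_num
    rw [e1] at h2
    have h5 : 2 * |K0| ≤ √(x : ℝ) := by
      rw [← Real.sqrt_sq (show 0 ≤ 2 * |K0| by positivity)]
      exact Real.sqrt_le_sqrt h4
    have h6 := hK0 x
    have h7 := le_abs_self K0
    linarith
  have hWx := (Metric.tendsto_nhds.1 hW) δ hδ0
  filter_upwards [hWx, hagx, hz ε hε, logN'.eventually (cc1 (K / δ) ε B hε hεB (by positivity)),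
    logN'.eventually_ge_atTop (1 / δ), eventually_ge_atTop 1] with x h1 h2 h3 h4 h5 h6
  have hx0 : (0 : ℝ) < x := by exact_mod_cast h6
  have hx1 : (1 : ℝ) ≤ x := by exact_mod_cast h6
  obtain ⟨l, hl⟩ : ∃ l : ℝ, l = Real.log x := ⟨_, rfl⟩
  rw [← hl] at h1 h3 h4 h5 ⊢
  rw [div_le_iff₀ hδ0] at h5
  have hl0 : 0 < l := by
    by_contra hcon
    push Not at hcon
    nlinarith
  obtain ⟨R, hR⟩ : ∃ R : ℝ, R = K * ((z x : ℝ) + 1) ^ B := ⟨_, rfl⟩
  have hR0 : 0 ≤ R := by rw [hR]; positivity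
  have hRl : R ≤ δ * l := by
    have g1 : R ≤ K * (l ^ ε + 1) ^ B := by
      rw [hR]
      gcongr
    have g2 : K / δ * (l ^ ε + 1) ^ B * δ ≤ l * δ := by gcongr
    have g3 : K / δ * (l ^ ε + 1) ^ B * δ = K * (l ^ ε + 1) ^ B := by
      field_simp
    linarith
  obtain ⟨X, hX⟩ : ∃ X : ℝ, X = x * l := ⟨_, rfl⟩
  have hX0 : 0 < X := by rw [hX]; positivity
  have hxX : (x : ℝ) ≤ δ * X := by
    rw [hX]
    nlinarith
  obtain ⟨U, hU⟩ : ∃ U : ℝ, U = ∑ n ∈ range x, wt P z (n + 1) * ((ag T n : ℝ) + 1) := ⟨_, rfl⟩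
  rw [← hU, ← hX, Real.dist_eq] at h1
  have hUX : |U - X| < δ * X := by
    have e1 : U / X - 1 = (U - X) / X := by field_simp
    rw [e1, abs_div, abs_of_pos hX0, div_lt_iff₀ hX0] at h1
    exact h1
  obtain ⟨c, hc⟩ : ∃ c : ℕ → ℝ, c = fun n => wt P z n - 1 := ⟨_, rfl⟩
  have hcsum : ∀ m i, m + i ≤ x → |∑ t ∈ Ioc m (m + i), c t| ≤ δ * i + R := by
    intro m i hmi
    have g1 := HB P z hm m i
    have e1 : ∑ t ∈ Ioc m (m + i), c t = ∑ n ∈ Finset.Ioc m (m + i), wt P z n - i := by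
      rw [hc, sum_sub_distrib, sum_const, Nat.card_Ioc, Nat.add_sub_cancel_left, nsmul_eq_mul, mul_one]
    rw [e1]
    refine g1.trans ?_
    have : (z (m + i) : ℝ) ≤ z x := by exact_mod_cast hm hmi
    rw [hR]
    gcongr
  have g1 := runs T c δ R hδ0.le x hcsum x le_rfl
  have g2 := J_le T c δ R hδ0.le x hcsum
  have g3 := sum_sq T x
  obtain ⟨a, ha⟩ : ∃ a : ℝ, a = (ag T x : ℝ) := ⟨_, rfl⟩
  rw [← ha] at g1 g2 g3 h2
  have ha0 : 0 ≤ a := by rw [ha]; exact Nat.cast_nonneg _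
  have haa : a ^ 2 ≤ x := by
    calc a ^ 2 ≤ √(x : ℝ) ^ 2 := pow_le_pow_left₀ ha0 h2 2
      _ = x := Real.sq_sqrt hx0.le
  have hax : a ≤ x := by nlinarith
  obtain ⟨E, hE⟩ : ∃ E : ℝ, E = ∑ n ∈ range x, c (n + 1) * ((ag T n : ℝ) + 1) := ⟨_, rfl⟩
  rw [← hE] at g1
  have hEU : E = U - ∑ n ∈ range x, ((ag T n : ℝ) + 1) := by
    rw [hE, hU, hc, ← sum_sub_distrib]
    apply sum_congr rfl
    intro n _
    ring
  have hsum2 : ∑ n ∈ range x, (2 * (ag T n : ℝ) + 1) = 2 * ∑ n ∈ range x, ((ag T n : ℝ) + 1) - x := by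
    rw [mul_sum]
    have : (x : ℝ) = ∑ n ∈ range x, (1 : ℝ) := by simp
    conv_rhs => rw [this]
    rw [← sum_sub_distrib]
    apply sum_congr rfl
    intro n _
    ring
  rw [hsum2] at g3
  have hQ0 : 0 ≤ Q T x := by
    unfold Q
    apply sum_nonneg
    intro n _
    split_ifs <;> positivity
  obtain ⟨q, hq⟩ : ∃ q : ℝ, q = Q T x := ⟨_, rfl⟩
  rw [← hq] at g1 g3 hQ0 ⊢
  have hQeq : q = 2 * U - 2 * E - x - a ^ 2 := by linarith
  have hRx : R * x ≤ δ * X := by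
    rw [hX]
    nlinarith
  have hRa : R * a ≤ δ * X := by
    refine le_trans ?_ hRx
    gcongr
  have hEle : |E| ≤ 2 * δ * q + 6 * (δ * X) := by
    have k1 : |E| ≤ |E - J T c x| + |J T c x| := by
      calc |E| = |(E - J T c x) + J T c x| := by ring_nf
        _ ≤ _ := abs_add_le _ _
    have k2 : 2 * R * ((x : ℝ) - a) ≤ 2 * (R * x) := by nlinarith
    have k3 : 2 * a * (δ * a + R) ≤ 2 * (δ * X) + 2 * (δ * X) := by
      have : δ * a ^ 2 ≤ δ * X := by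
        have : a ^ 2 ≤ X := by
          have : δ * X ≤ X := by nlinarith
          linarith
        gcongr
      nlinarith
    linarith
  obtain ⟨k4, k5⟩ := abs_le.1 hEle
  obtain ⟨k6, k7⟩ := abs_lt.1 hUX
  have hq4 : q ≤ 4 * X := by
    have : 0 ≤ a ^ 2 := sq_nonneg a
    nlinarith
  have hδq : δ * q ≤ 4 * (δ * X) := by nlinarith
  have hδX : δ * X ≤ e / 64 * X := by gcongr
  have e1 : q / X - 2 = (q - 2 * X) / X := by field_simp
  rw [← hX, Real.dist_eq, e1, abs_div, abs_of_pos hX0, div_lt_iff₀ hX0, abs_lt]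
  have ha2 : 0 ≤ a ^ 2 := sq_nonneg a
  constructor <;> nlinarith

/-- **the sum of the squares of the gaps** in sequential random models -/
theorem sq_main {Ω : Type} {m0 : MeasurableSpace Ω} {μ : Measure Ω} [IsProbabilityMeasure μ]
    {ℱ : Filtration ℕ m0} {A : ℕ → Set Ω} (hA : ∀ n, MeasurableSet[ℱ n] (A n)) (P : Set ℕ) (z : ℕ → ℕ)
    (hm : Monotone z) (hz : ∀ δ : ℝ, 0 < δ → ∀ᶠ n : ℕ in atTop, (z n : ℝ) ≤ Real.log n ^ δ)
    (hcop : ∀ n, ¬ Rough P z n → A n = ∅)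
    (hd : ∀ᵐ ω ∂μ, Tendsto (fun n : ℕ => dens μ ℱ A n ω * Real.log n / W P (z (n + 1)))
      (atTop ⊓ 𝓟 {n : ℕ | Rough P z (n + 1)}) (𝓝 1)) :
    ∀ᵐ ω ∂μ, Tendsto (fun x : ℕ => Q {k | ω ∈ A k} x / (x * Real.log x)) atTop (𝓝 2) ∧
      ∃ n, ω ∈ A n := by
  have hV : ∀ᶠ n : ℕ in atTop, W P (z n) / Real.log n < 1 := by
    refine short P 1 z ?_
    filter_upwards [hz 1 one_pos] with n hn
    rwa [Real.rpow_one, ← pow_one (Real.log (n : ℝ))] at hn
  have hprof := profile P z hV hcop hd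
  have hs := hsum P z hm hz hV
  have hL := as_fin hA (rho1 P z) (rho1_bounds P z) hprof hs 2 (by norm_num)
  filter_upwards [renewal (μ := μ) hA hL, hprof, hL] with ω h1 h2 h3
  have h4 := to_rho (fun n => (ag {k | ω ∈ A k} n : ℝ) + 1) (fun n => dens μ ℱ A n ω) (fun n => rho1 P z (n + 1))
    (fun n => by positivity) (fun n => (rho1_bounds P z (n + 1)).1) h2 h1
  have h5 := to_log (fun n => (ag {k | ω ∈ A k} n : ℝ) + 1) (fun n => rho1 P z (n + 1))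
    (fun n => by positivity) (fun n => (rho1_bounds P z (n + 1)).1) h4
  refine ⟨det_sq {k | ω ∈ A k} P z hm hz hV (ag_le {k | ω ∈ A k} h3) h5, ?_⟩
  obtain ⟨m, n, -, -, h6⟩ := h3.exists
  exact ⟨n, h6⟩

end Pool.Agent.J6H15.SQ
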