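import Mathlib
import Pool.Agent.J6H15.SQ.Prob

/-! # The renewal identity for adapted random sets with gaps `O((log n) ^ 2)` -/

set_option autoImplicit false
set_option linter.unusedSectionVars false

open MeasureTheory Filter
open scoped ENNReal Topology

namespace Pool.Agent.J6H15.SQ

open Pool.Agent.R528.RM
open Pool.Agent.J6H15.SM

section

variable {Ω : Type} {m0 : MeasurableSpace Ω} {μ : Measure Ω} [IsProbabilityMeasure μ]
  {ℱ : Filtration ℕ m0} {A : ℕ → Set Ω}

theorem azuma_agC (C : ℝ) (hC : 0 < C) (hA : ∀ n, MeasurableSet[ℱ n] (A n)) : ∀ᵐ ω ∂μ, ∀ᶠ x : ℕ in atTop,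
    |Sw μ ℱ A 0 (ww A ((C + 1) * Real.log x ^ 2)) x ω| < 2 * √(x * Real.log x) := by
  have hsum : Summable (fun n : ℕ => 2 * ((n : ℝ) ^ 2)⁻¹) :=
    (Real.summable_nat_pow_inv.2 (by norm_num)).mul_left 2
  have h1 : ∀ᶠ x : ℕ in atTop,
      μ.real {ω | 2 * √(x * Real.log x) ≤ |Sw μ ℱ A 0 (ww A ((C + 1) * Real.log x ^ 2)) x ω|} ≤ 2 * ((x : ℝ) ^ 2)⁻¹ := by
    filter_upwards [logN'.eventually_gt_atTop 0, eventually_ge_atTop 2] with x h2 h3
    have hx0 : (0 : ℝ) < x := by
      have : 0 < x := by omega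
      exact_mod_cast this
    have h4 := Sw_tail (μ := μ) hA 0 (ww A ((C + 1) * Real.log x ^ 2)) (ww_meas hA _)
      (ww_le _ (by positivity)) x (by omega) (lam := 2 * √(x * Real.log x)) (by positivity)
    refine h4.trans (le_of_eq ?_)
    congr 1
    have e1 : (2 * √((x : ℝ) * Real.log x)) ^ 2 / (2 * x) = 2 * Real.log x := by
      rw [mul_pow, Real.sq_sqrt (by positivity)]
      field_simp
    rw [e1, Real.exp_neg, show 2 * Real.log (x : ℝ) = Real.log (x : ℝ) + Real.log x by ring, Real.exp_add,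
      Real.exp_log hx0]
    ring
  filter_upwards [bc_real hsum h1] with ω hω
  filter_upwards [hω] with x hx
  exact not_le.1 hx

end

/-- the distance to the last element is small -/
lemma ag_leC (C : ℝ) (hC : 0 < C) (T : Set ℕ) (h : ∀ᶠ m : ℕ in atTop, ∃ n, m < n ∧ n ≤ m + blk C m ∧ n ∈ T) :
    ∃ K0 : ℝ, ∀ n : ℕ, (ag T n : ℝ) ≤ C * Real.log n ^ 2 + K0 := by
  obtain ⟨m0, hm0⟩ := eventually_atTop.1 h
  refine ⟨((m0 + blk C m0 : ℕ) : ℝ), fun n => ?_⟩
  obtain ⟨h1, h2, h3⟩ := ag_spec T n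
  rcases Nat.lt_or_ge (n - ag T n) m0 with h4 | h4
  · obtain ⟨n', h5, h6, h7⟩ := hm0 m0 le_rfl
    have h8 : n < n' := by
      by_contra hcon
      exact h3 n' (by omega) (by omega) h7
    have h9 : (ag T n : ℝ) ≤ ((m0 + blk C m0 : ℕ) : ℝ) := by
      exact_mod_cast (by omega : ag T n ≤ m0 + blk C m0)
    have : 0 ≤ C * Real.log (n : ℝ) ^ 2 := by positivity
    linarith
  · obtain ⟨l, hl⟩ : ∃ l, l = n - ag T n := ⟨_, rfl⟩
    rw [← hl] at h3 h4
    obtain ⟨n', h5, h6, h7⟩ := hm0 l h4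
    have h8 : n < n' := by
      by_contra hcon
      exact h3 n' h5 (by omega) h7
    have h9 : (ag T n : ℝ) ≤ (blk C l : ℝ) := by
      exact_mod_cast (by omega : ag T n ≤ blk C l)
    have h10 : (blk C l : ℝ) ≤ C * Real.log l ^ 2 := by
      unfold blk
      exact Nat.floor_le (by positivity)
    have h11 : Real.log (l : ℝ) ^ 2 ≤ Real.log (n : ℝ) ^ 2 := by
      rcases Nat.eq_zero_or_pos l with h12 | h12
      · rw [h12, Nat.cast_zero, Real.log_zero]
        have : 0 ≤ Real.log (n : ℝ) ^ 2 := by positivity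
        simpa using this
      · apply pow_le_pow_left₀ (Real.log_natCast_nonneg l)
        apply Real.log_le_log (by exact_mod_cast h12)
        exact_mod_cast (by omega : l ≤ n)
    have : (0 : ℝ) ≤ ((m0 + blk C m0 : ℕ) : ℝ) := Nat.cast_nonneg _
    have h12 := mul_le_mul_of_nonneg_left h11 hC.le
    linarith

section

variable {Ω : Type} {m0 : MeasurableSpace Ω} {μ : Measure Ω} [IsProbabilityMeasure μ]
  {ℱ : Filtration ℕ m0} {A : ℕ → Set Ω}

/-- **the renewal identity** -/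
theorem renewalC (C : ℝ) (hC : 0 < C) (hA : ∀ n, MeasurableSet[ℱ n] (A n))
    (hL : ∀ᵐ ω ∂μ, ∀ᶠ m : ℕ in atTop, ∃ n, m < n ∧ n ≤ m + blk C m ∧ ω ∈ A n) :
    ∀ᵐ ω ∂μ, Tendsto (fun x : ℕ => (∑ n ∈ Finset.range x, dens μ ℱ A n ω * ((ag {k | ω ∈ A k} n : ℝ) + 1)) / x)
      atTop (𝓝 1) := by
  classical
  filter_upwards [azuma_agC (μ := μ) C hC hA, hL] with ω h1 h2
  obtain ⟨K0, hK0⟩ := ag_leC C hC {k | ω ∈ A k} h2
  -- the error
  have herr : Tendsto (fun x : ℕ => ((C + 1) * Real.log x ^ 2) * (2 * √(x * Real.log x)) / x) atTop (𝓝 0) := by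
    have g1 := (isLittleO_log_rpow_rpow_atTop (5 / 2 : ℝ) (show (0 : ℝ) < 1 / 2 by norm_num)).tendsto_div_nhds_zero
    have g2 := (g1.comp tendsto_natCast_atTop_atTop).const_mul (2 * (C + 1))
    rw [mul_zero] at g2
    refine g2.congr' ?_
    filter_upwards [logN'.eventually_gt_atTop 0, eventually_ge_atTop 1] with x h3 h4
    have hx0 : (0 : ℝ) < x := by exact_mod_cast h4
    simp only [Function.comp]
    rw [Real.sqrt_mul hx0.le, show (5 / 2 : ℝ) = 2 + 1 / 2 by norm_num, Real.rpow_add h3,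
      ← Real.sqrt_eq_rpow, ← Real.sqrt_eq_rpow]
    have h5 : √(x : ℝ) * √(x : ℝ) = x := Real.mul_self_sqrt hx0.le
    have h6 : 0 < √(x : ℝ) := Real.sqrt_pos.2 hx0
    have h7 : Real.log (x : ℝ) ^ (2 : ℝ) = Real.log x ^ 2 := by
      rw [show (2 : ℝ) = ((2 : ℕ) : ℝ) by norm_num, Real.rpow_natCast]
    rw [h7]
    have h8 : 2 * (C + 1) * (Real.log (x : ℝ) ^ 2 * √(Real.log x) / √(x : ℝ)) =
        2 * (C + 1) * (Real.log (x : ℝ) ^ 2 * √(Real.log x) * √(x : ℝ)) / (√(x : ℝ) * √(x : ℝ)) := by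
      field_simp
    rw [h8, h5]
    ring
  have hag : Tendsto (fun x : ℕ => (ag {k | ω ∈ A k} x : ℝ) / x) atTop (𝓝 0) := by
    have g1 := (isLittleO_log_rpow_rpow_atTop (2 : ℝ) (show (0 : ℝ) < 1 by norm_num)).tendsto_div_nhds_zero
    have g2 := (g1.comp tendsto_natCast_atTop_atTop).const_mul C
    have g3 : Tendsto (fun x : ℕ => K0 / (x : ℝ)) atTop (𝓝 0) :=
      tendsto_const_nhds.div_atTop tendsto_natCast_atTop_atTop
    have g4 := g2.add g3
    rw [mul_zero, add_zero] at g4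
    refine squeeze_zero' (Eventually.of_forall fun x => by positivity) ?_ g4
    filter_upwards [eventually_ge_atTop 1] with x h4
    have hx0 : (0 : ℝ) < x := by exact_mod_cast h4
    simp only [Function.comp]
    rw [Real.rpow_one, show (2 : ℝ) = ((2 : ℕ) : ℝ) by norm_num, Real.rpow_natCast]
    push_cast
    rw [← mul_div_assoc, ← add_div]
    exact div_le_div_of_nonneg_right (hK0 x) hx0.le
  have hmain : ∀ᶠ x : ℕ in atTop,
      |(∑ n ∈ Finset.range x, dens μ ℱ A n ω * ((ag {k | ω ∈ A k} n : ℝ) + 1)) / x - 1| ≤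
        ((C + 1) * Real.log x ^ 2) * (2 * √(x * Real.log x)) / x + (ag {k | ω ∈ A k} x : ℝ) / x := by
    filter_upwards [h1, logN'.eventually_ge_atTop (max 1 (|K0| + 1)), eventually_ge_atTop 2] with x g1 g2 g3
    have hl1 : 1 ≤ Real.log (x : ℝ) := (le_max_left _ _).trans g2
    have hlK : |K0| + 1 ≤ Real.log (x : ℝ) := (le_max_right _ _).trans g2
    have hx0 : (0 : ℝ) < x := by
      have : 0 < x := by omega
      exact_mod_cast this
    obtain ⟨b, hb⟩ : ∃ b : ℝ, b = (C + 1) * Real.log x ^ 2 := ⟨_, rfl⟩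
    have hb0 : 0 < b := by rw [hb]; positivity
    rw [← hb] at g1 ⊢
    have hw : ∀ k < x, ww A b k ω = (agr A k ω + 1) / b := by
      intro k hk
      unfold ww
      rw [min_eq_left]
      have h3 := hK0 k
      have h4 : Real.log (k : ℝ) ^ 2 ≤ Real.log (x : ℝ) ^ 2 := by
        rcases Nat.eq_zero_or_pos k with h12 | h12
        · rw [h12, Nat.cast_zero, Real.log_zero]
          have : 0 ≤ Real.log (x : ℝ) ^ 2 := by positivity
          simpa using this
        · apply pow_le_pow_left₀ (Real.log_natCast_nonneg k)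
          apply Real.log_le_log (by exact_mod_cast h12)
          exact_mod_cast hk.le
      have h5 : Real.log (x : ℝ) ≤ Real.log (x : ℝ) ^ 2 := by nlinarith
      have h6 := le_abs_self K0
      unfold agr
      rw [hb]
      have h7 := mul_le_mul_of_nonneg_left h4 hC.le
      have h8 : (C + 1) * Real.log (x : ℝ) ^ 2 = C * Real.log (x : ℝ) ^ 2 + Real.log (x : ℝ) ^ 2 := by ring
      linarith
    have hSw : Sw μ ℱ A 0 (ww A b) x ω * b = ∑ n ∈ Finset.range x,
        (((if ω ∈ A (n + 1) then ((ag {k | ω ∈ A k} n : ℝ) + 1) else 0)) -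
          dens μ ℱ A n ω * ((ag {k | ω ∈ A k} n : ℝ) + 1)) := by
      unfold Sw
      rw [Finset.sum_mul]
      apply Finset.sum_congr rfl
      intro n hn
      rw [Finset.mem_range] at hn
      rw [hw n hn, zero_add]
      unfold agr
      by_cases h : ω ∈ A (n + 1)
      · rw [if_pos h, Set.indicator_of_mem h]
        field_simp
      · rw [if_neg h, Set.indicator_of_notMem h]
        field_simp
        ring
    have hfirst := sum_first {k | ω ∈ A k} x
    have hfirst' : ∑ n ∈ Finset.range x, (if ω ∈ A (n + 1) then ((ag {k | ω ∈ A k} n : ℝ) + 1) else 0) +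
        ag {k | ω ∈ A k} x = x := by
      rw [← hfirst]
      rfl
    rw [Finset.sum_sub_distrib] at hSw
    obtain ⟨D, hD⟩ : ∃ D : ℝ, D = ∑ n ∈ Finset.range x, dens μ ℱ A n ω * ((ag {k | ω ∈ A k} n : ℝ) + 1) :=
      ⟨_, rfl⟩
    rw [← hD] at hSw ⊢
    have e1 : D - x = -(Sw μ ℱ A 0 (ww A b) x ω * b) - ag {k | ω ∈ A k} x := by
      rw [hSw]
      linarith
    have e2 : |D - x| ≤ b * (2 * √(x * Real.log x)) + ag {k | ω ∈ A k} x := by
      rw [e1]
      refine (abs_sub _ _).trans ?_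
      have k1 : |(ag {k | ω ∈ A k} x : ℝ)| = ag {k | ω ∈ A k} x := abs_of_nonneg (Nat.cast_nonneg _)
      rw [abs_neg, abs_mul, abs_of_pos hb0, k1, mul_comm]
      gcongr
    have e3 : D / x - 1 = (D - x) / x := by
      field_simp
    rw [e3, abs_div, abs_of_pos hx0, ← add_div]
    exact div_le_div_of_nonneg_right e2 hx0.le
  have hz := herr.add hag
  rw [add_zero] at hz
  have h5 : Tendsto (fun x : ℕ => (∑ n ∈ Finset.range x, dens μ ℱ A n ω * ((ag {k | ω ∈ A k} n : ℝ) + 1)) / x - 1)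
      atTop (𝓝 0) := squeeze_zero_norm' (by
    filter_upwards [hmain] with x hx
    rw [Real.norm_eq_abs]
    exact hx) hz
  have h6 := h5.add_const 1
  simpa using h6

end

end Pool.Agent.J6H15.SQ
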