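import Mathlib
import Pool.Agent.J6H15.SM.Cra
import Pool.Agent.J6H15.SQ.Main
import Pool.Agent.J6H15.SQ.ProbC

/-! # Sums of the weights over long intervals; runs -/

set_option autoImplicit false
set_option linter.unusedSectionVars false

open Filter Finset
open scoped Topology

namespace Pool.Agent.J6H15.SQ

open Pool.Agent.J6H13.UM
open Pool.Agent.J6H15.SM

/-- the sum of the weights over an interval of length `L` if the sieve is at most `L ^ κ`, `κ < 1 / 2` -/
theorem long_sum (κ : ℝ) (hκ0 : 0 < κ) (hκ : κ < 1 / 2) : ∃ c : ℝ, 0 < c ∧ ∃ L0 : ℕ, ∀ (P : Set ℕ),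
    (∀ q : ℕ, q.Prime → q ∈ P) → ∀ z : ℕ → ℕ, Monotone z → ∀ m L : ℕ, L0 ≤ L →
    (z (m + L) : ℝ) < (L : ℝ) ^ κ → c * L ≤ ∑ n ∈ Finset.Ioc m (m + L), wt P z n := by
  classical
  obtain ⟨K, B, hK, HB⟩ := block_sum (1 / 2) (by norm_num)
  obtain ⟨δ, τ', hδ, hτ0, hτ1, Y0, HL⟩ := lin_low κ hκ0 hκ
  obtain ⟨ε, hεdef⟩ : ∃ ε : ℝ, ε = 1 / (2 * ((B : ℝ) + 1)) := ⟨_, rfl⟩
  have hε : 0 < ε := by rw [hεdef]; positivity
  have hεB : ε * B ≤ 1 / 2 := by
    rw [hεdef, div_mul_eq_mul_div, div_le_div_iff₀ (by positivity) (by norm_num)]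
    linarith
  obtain ⟨Y1, hY1⟩ := eventually_atTop.1 (c3 δ τ' hδ hτ1)
  obtain ⟨N1, hN1⟩ := eventually_atTop.1 W0_low
  have hc4 : ∀ᶠ x : ℝ in atTop, (N1 : ℝ) ≤ x ^ ε := (tendsto_rpow_atTop hε).eventually_ge_atTop _
  obtain ⟨M0, hM0⟩ := eventually_atTop.1 ((tendsto_natCast_atTop_atTop (R := ℝ)).eventually
    ((c1 (8 * K) ε B hε hεB (by positivity)).and hc4))
  refine ⟨min (1 / 8) (δ * ε / 4), by positivity, max (max Y0 Y1) (max M0 1), ?_⟩
  intro P hP z hz m L hL hzL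
  have hLY0 : Y0 ≤ L := ((le_max_left _ _).trans (le_max_left _ _)).trans hL
  have hLY1 : Y1 ≤ L := ((le_max_right _ _).trans (le_max_left _ _)).trans hL
  have hLM0 : M0 ≤ L := ((le_max_left _ _).trans (le_max_right _ _)).trans hL
  have hL1 : 1 ≤ L := ((le_max_right _ _).trans (le_max_right _ _)).trans hL
  have hL0 : (0 : ℝ) < L := by exact_mod_cast hL1
  have hL1r : (1 : ℝ) ≤ L := by exact_mod_cast hL1
  obtain ⟨e4, e6⟩ := hM0 L hLM0
  have hw0 : ∀ n ∈ Finset.Ioc m (m + L), 0 ≤ wt P z n := fun n _ => wt_nonneg P z n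
  obtain ⟨w, hw⟩ : ∃ w : ℕ, w = ⌊(L : ℝ) ^ ε⌋₊ := ⟨_, rfl⟩
  have hwle : (w : ℝ) ≤ (L : ℝ) ^ ε := by
    rw [hw]
    exact Nat.floor_le (by positivity)
  have hwlt : (L : ℝ) ^ ε < (w : ℝ) + 1 := by
    rw [hw]
    exact Nat.lt_floor_add_one _
  obtain ⟨t, ht1, ht2, ht3, ht4⟩ := split z hz w m L
  rcases le_total (L : ℝ) (2 * ((t : ℝ) - m)) with hcase | hcase
  · have htm : m < t := by
      have h2 : (m : ℝ) < t := by linarith
      exact_mod_cast h2
    have h1 := HB P z hz m (t - m)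
    rw [show m + (t - m) = t by omega, Nat.cast_sub ht1] at h1
    have h2 : (z t : ℝ) ≤ (L : ℝ) ^ ε := by
      have : z t ≤ w := ht3 t htm le_rfl
      have h3 : (z t : ℝ) ≤ w := by exact_mod_cast this
      linarith
    have h3 : 8 * K * ((z t : ℝ) + 1) ^ B ≤ L := by
      refine le_trans ?_ e4
      gcongr
    have h4 := (abs_le.1 h1).1
    have h5 : 1 / 8 * (L : ℝ) ≤ ∑ n ∈ Finset.Ioc m t, wt P z n := by linarith
    have h6 : ∑ n ∈ Finset.Ioc m t, wt P z n ≤ ∑ n ∈ Finset.Ioc m (m + L), wt P z n := by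
      apply sum_le_sum_of_subset_of_nonneg
      · exact Finset.Ioc_subset_Ioc_right ht2
      · intro n hn _
        exact hw0 n hn
    refine le_trans ?_ (h5.trans h6)
    exact mul_le_mul_of_nonneg_right (min_le_left _ _) hL0.le
  · obtain ⟨Z, hZ⟩ : ∃ Z, Z = z (m + L) := ⟨_, rfl⟩
    rw [← hZ] at hzL
    have h1 := HL L hLY0 P t (m + L) Z ht2 hzL
    obtain ⟨hl1, h2⟩ := hY1 L hLY1
    obtain ⟨l, hl⟩ : ∃ l : ℝ, l = Real.log L := ⟨_, rfl⟩
    rw [← hl] at h1 hl1 h2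
    have hl0 : 0 < l := by linarith
    have h3 : δ * L / (4 * l) ≤ ((RZ P t (m + L) Z).card : ℝ) := by
      refine le_trans ?_ h1
      have h4 : δ * (L / 2) / l ≤ δ * (((m + L : ℕ) : ℝ) - t) / l := by
        push_cast
        gcongr
        linarith
      have h5 : 5 * l * (L : ℝ) ^ τ' ≤ δ * L / (4 * l) := by
        rw [le_div_iff₀ (by positivity)]
        calc 5 * l * (L : ℝ) ^ τ' * (4 * l) = 20 * l ^ 2 * (L : ℝ) ^ τ' := by ring
          _ ≤ _ := h2
      have h6 : δ * (L / 2) / l = δ * L / (4 * l) + δ * L / (4 * l) := by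
        field_simp
        ring
      linarith
    have hterm : ∀ n ∈ RZ P t (m + L) Z, ε * l ≤ wt P z n := by
      intro n hn
      unfold RZ at hn
      rw [mem_filter, Finset.mem_Ioc] at hn
      obtain ⟨⟨h4, h5⟩, h6⟩ := hn
      have h7 : Rough P z n := by
        intro q hq1 hq2 hq3
        refine h6 q hq1 hq2 ?_
        rw [hZ]
        exact hq3.trans (hz h5)
      have h8 : w < z n := ht4 n h4 h5
      unfold wt
      rw [if_pos h7, W_all P hP]
      have h10 : N1 ≤ w + 1 := by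
        have : (N1 : ℝ) ≤ (w : ℝ) + 1 := by linarith
        exact_mod_cast this
      have h11 : W0 (w + 1) ≤ W0 (z n) := W0_mono (by omega)
      have h12 := hN1 (w + 1) h10
      have h13 : ε * l ≤ Real.log ((w + 1 : ℕ) : ℝ) := by
        rw [hl, ← Real.log_rpow hL0]
        apply Real.log_le_log (by positivity)
        push_cast
        exact hwlt.le
      linarith
    have h4 : ((RZ P t (m + L) Z).card : ℝ) * (ε * l) ≤ ∑ n ∈ Finset.Ioc m (m + L), wt P z n := by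
      calc ((RZ P t (m + L) Z).card : ℝ) * (ε * l)
          = ∑ n ∈ RZ P t (m + L) Z, ε * l := by rw [sum_const, nsmul_eq_mul]
        _ ≤ ∑ n ∈ RZ P t (m + L) Z, wt P z n := sum_le_sum hterm
        _ ≤ _ := by
            apply sum_le_sum_of_subset_of_nonneg
            · intro n hn
              unfold RZ at hn
              rw [mem_filter, Finset.mem_Ioc] at hn
              rw [Finset.mem_Ioc]
              omega
            · intro n hn _
              exact hw0 n hn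
    refine le_trans ?_ h4
    have h5 : δ * L / (4 * l) * (ε * l) ≤ ((RZ P t (m + L) Z).card : ℝ) * (ε * l) := by gcongr
    refine le_trans ?_ h5
    have h6 : δ * L / (4 * l) * (ε * l) = δ * ε / 4 * L := by
      field_simp
    rw [h6]
    exact mul_le_mul_of_nonneg_right (min_le_right _ _) hL0.le

/-- one run -/
lemma run_low (w : ℕ → ℝ) (hw : ∀ n, 0 ≤ w n) (s g : ℕ) (c L0 : ℝ) (hc : 0 ≤ c) (hL0 : 0 ≤ L0)
    (h : ∀ m i, m + i ≤ s + g → L0 ≤ i → c * i ≤ ∑ t ∈ Ioc m (m + i), w t) :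
    c / 4 * (g : ℝ) ^ 2 - c * L0 * g ≤ ∑ i ∈ range g, w (s + i + 1) * ((i : ℝ) + 1) := by
  obtain ⟨k, hk⟩ : ∃ k, k = g / 2 := ⟨_, rfl⟩
  have hkg : k ≤ g := by omega
  have hg0 : (0 : ℝ) ≤ g := Nat.cast_nonneg g
  have hsum0 : 0 ≤ ∑ i ∈ range g, w (s + i + 1) * ((i : ℝ) + 1) :=
    sum_nonneg fun i _ => mul_nonneg (hw _) (by positivity)
  have hgk : (g : ℝ) / 2 ≤ (g : ℝ) - k := by
    have : 2 * k ≤ g := by omega
    have : (2 : ℝ) * k ≤ g := by exact_mod_cast this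
    linarith
  have hk1 : (g : ℝ) / 2 ≤ (k : ℝ) + 1 := by
    have : g ≤ 2 * (k + 1) := by omega
    have : (g : ℝ) ≤ 2 * ((k : ℝ) + 1) := by exact_mod_cast this
    linarith
  rcases le_total L0 ((g : ℝ) - k) with h1 | h1
  · have h2 := h (s + k) (g - k) (by omega) (by rw [Nat.cast_sub hkg]; exact h1)
    rw [show s + k + (g - k) = s + g by omega, Nat.cast_sub hkg] at h2
    have h3 : (g : ℝ) / 2 * ∑ t ∈ Ioc (s + k) (s + g), w t ≤ ∑ i ∈ range g, w (s + i + 1) * ((i : ℝ) + 1) := by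
      have h4 : ∑ t ∈ Ioc (s + k) (s + g), w t = ∑ i ∈ Ico k g, w (s + i + 1) := by
        symm
        refine sum_nbij' (fun i => s + i + 1) (fun t => t - s - 1) ?_ ?_ ?_ ?_ ?_
        · intro i hi
          rw [mem_Ico] at hi
          rw [mem_Ioc]
          omega
        · intro t ht
          rw [mem_Ioc] at ht
          rw [mem_Ico]
          omega
        · intro i hi
          show s + i + 1 - s - 1 = i
          omega
        · intro t ht
          rw [mem_Ioc] at ht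
          show s + (t - s - 1) + 1 = t
          omega
        · intro i _
          rfl
      rw [h4, mul_sum]
      calc ∑ i ∈ Ico k g, (g : ℝ) / 2 * w (s + i + 1) ≤ ∑ i ∈ Ico k g, w (s + i + 1) * ((i : ℝ) + 1) := by
            apply sum_le_sum
            intro i hi
            rw [mem_Ico] at hi
            have h5 : (g : ℝ) / 2 ≤ (i : ℝ) + 1 := by
              have : (k : ℝ) ≤ i := by exact_mod_cast hi.1
              linarith
            have := mul_le_mul_of_nonneg_left h5 (hw (s + i + 1))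
            linarith
        _ ≤ _ := by
            apply sum_le_sum_of_subset_of_nonneg
            · intro i hi
              rw [mem_Ico] at hi
              rw [mem_range]
              exact hi.2
            · intro i _ _
              exact mul_nonneg (hw _) (by positivity)
    refine le_trans ?_ h3
    have h4 : (g : ℝ) / 2 * (c * ((g : ℝ) - k)) ≤ (g : ℝ) / 2 * ∑ t ∈ Ioc (s + k) (s + g), w t := by gcongr
    have h5 : (g : ℝ) / 2 * (c * ((g : ℝ) / 2)) ≤ (g : ℝ) / 2 * (c * ((g : ℝ) - k)) := by gcongr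
    have h6 : 0 ≤ c * L0 * g := by positivity
    nlinarith
  · have h2 : (g : ℝ) ≤ 2 * L0 := by linarith
    have h3 : c / 4 * (g : ℝ) ^ 2 ≤ c * L0 * g := by
      have h4 : c * g * g ≤ c * g * (2 * L0) := by gcongr
      have h5 : 0 ≤ c * L0 * g := by positivity
      nlinarith
    linarith

/-- all runs -/
theorem runs_low (T : Set ℕ) (w : ℕ → ℝ) (hw : ∀ n, 0 ≤ w n) (c L0 : ℝ) (hc : 0 ≤ c) (hL0 : 0 ≤ L0) (X : ℕ)
    (h : ∀ m i, m + i ≤ X → L0 ≤ i → c * i ≤ ∑ t ∈ Ioc m (m + i), w t) : ∀ x ≤ X,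
    c / 4 * Q T x - c * L0 * ((x : ℝ) - ag T x) ≤ ∑ n ∈ range x, w (n + 1) * ((ag T n : ℝ) + 1) - J T w x := by
  classical
  intro x
  induction x with
  | zero =>
    intro _
    simp [ag, Q, J]
  | succ x ih =>
    intro hx
    have h0 := ih (by omega)
    have hle := (ag_spec T x).1
    have hQ : Q T (x + 1) = Q T x + if x + 1 ∈ T then ((ag T x : ℝ) + 1) ^ 2 else 0 := by
      unfold Q
      rw [sum_range_succ]
    rw [sum_range_succ, hQ]
    have hrs := run_sum T w x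
    by_cases hT : x + 1 ∈ T
    · have e : ag T (x + 1) = 0 := by simp [ag, hT]
      have eJ : J T w (x + 1) = 0 := by
        unfold J
        rw [e]
        simp
      rw [eJ, e, if_pos hT]
      have h1 := run_low w hw (x - ag T x) (ag T x + 1) c L0 hc hL0 (fun m i hi => h m i (by omega))
      rw [← hrs] at h1
      push_cast at h1 ⊢
      nlinarith
    · have e : ag T (x + 1) = ag T x + 1 := by simp [ag, hT]
      have eJ : J T w (x + 1) = J T w x + w (x + 1) * ((ag T x : ℝ) + 1) := by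
        rw [hrs]
        unfold J
        rw [e, show x + 1 - (ag T x + 1) = x - ag T x by omega]
      rw [eJ, e, if_neg hT]
      push_cast
      nlinarith

lemma J_nonneg (T : Set ℕ) (w : ℕ → ℝ) (hw : ∀ n, 0 ≤ w n) (x : ℕ) : 0 ≤ J T w x := by
  unfold J
  exact sum_nonneg fun i _ => mul_nonneg (hw _) (by positivity)

/-- the sum with the weights -/
theorem wt_lim (T : Set ℕ) (P : Set ℕ) (z : ℕ → ℕ) (hV : ∀ᶠ n : ℕ in atTop, W P (z n) / Real.log n < 1)
    (h : Tendsto (fun x : ℕ => (∑ n ∈ range x, rho1 P z (n + 1) * Real.log ((n : ℝ) + 1) * ((ag T n : ℝ) + 1)) /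
      (x * Real.log x)) atTop (𝓝 1)) :
    Tendsto (fun x : ℕ => (∑ n ∈ range x, wt P z (n + 1) * ((ag T n : ℝ) + 1)) / (x * Real.log x))
      atTop (𝓝 1) := by
  classical
  obtain ⟨N, hN⟩ := eventually_atTop.1 (hV.and (logN'.eventually_gt_atTop 0))
  obtain ⟨K, hK⟩ : ∃ K : ℝ, K = ∑ n ∈ range N, (wt P z (n + 1) * ((ag T n : ℝ) + 1) -
    rho1 P z (n + 1) * Real.log ((n : ℝ) + 1) * ((ag T n : ℝ) + 1)) := ⟨_, rfl⟩
  have hden : Tendsto (fun x : ℕ => (x : ℝ) * Real.log x) atTop atTop :=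
    tendsto_natCast_atTop_atTop.atTop_mul_atTop₀ logN'
  have h1 : Tendsto (fun x : ℕ => K / ((x : ℝ) * Real.log x)) atTop (𝓝 0) := tendsto_const_nhds.div_atTop hden
  have h2 := h.add h1
  rw [add_zero] at h2
  refine h2.congr' ?_
  filter_upwards [eventually_ge_atTop N] with x hx
  rw [← add_div]
  congr 1
  rw [hK]
  have h3 : ∑ n ∈ range N, (wt P z (n + 1) * ((ag T n : ℝ) + 1) -
    rho1 P z (n + 1) * Real.log ((n : ℝ) + 1) * ((ag T n : ℝ) + 1)) =
    ∑ n ∈ range x, (wt P z (n + 1) * ((ag T n : ℝ) + 1) -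
    rho1 P z (n + 1) * Real.log ((n : ℝ) + 1) * ((ag T n : ℝ) + 1)) := by
    apply sum_subset
    · intro n hn
      rw [mem_range] at hn ⊢
      omega
    · intro n _ hn
      rw [mem_range, not_lt] at hn
      obtain ⟨h4, h5⟩ := hN (n + 1) (by omega)
      rw [rho1_wt P z (n + 1) h4]
      push_cast at h5 ⊢
      field_simp
      ring
  rw [h3, sum_sub_distrib]
  ring

/-- the upper bound, the deterministic part -/
theorem det_up_sq (θ : ℝ) (hθ0 : 0 < θ) (hθ : θ < 1 / 2) : ∃ C : ℝ, 0 < C ∧ ∀ (P : Set ℕ),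
    (∀ q : ℕ, q.Prime → q ∈ P) → ∀ z : ℕ → ℕ, Monotone z →
    (∀ᶠ n : ℕ in atTop, (z n : ℝ) ≤ Real.log n ^ θ) → ∀ T : Set ℕ,
    Tendsto (fun x : ℕ => (∑ n ∈ range x, wt P z (n + 1) * ((ag T n : ℝ) + 1)) / (x * Real.log x)) atTop (𝓝 1) →
    ∀ᶠ x : ℕ in atTop, Q T x ≤ C * (x * Real.log x) := by
  classical
  obtain ⟨E, hE⟩ : ∃ E : ℝ, E = θ + 1 / 2 := ⟨_, rfl⟩
  have hE0 : 0 < E := by linarith
  have hE1 : E < 1 := by linarith
  obtain ⟨κ, hκ⟩ : ∃ κ : ℝ, κ = (θ / E + 1 / 2) / 2 := ⟨_, rfl⟩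
  have hθE : θ / E < 1 / 2 := by
    rw [div_lt_div_iff₀ hE0 (by norm_num)]
    linarith
  have hθE0 : 0 < θ / E := by positivity
  have hκ0 : 0 < κ := by rw [hκ]; positivity
  have hκ1 : κ < 1 / 2 := by rw [hκ]; linarith
  have hEκ : θ < E * κ := by
    rw [hκ]
    have : θ / E < (θ / E + 1 / 2) / 2 := by linarith
    calc θ = E * (θ / E) := by field_simp
      _ < E * ((θ / E + 1 / 2) / 2) := by gcongr
  obtain ⟨c, hc, L0, HLS⟩ := long_sum κ hκ0 hκ1
  refine ⟨4 / c * (2 + c), by positivity, ?_⟩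
  intro P hP z hz hzθ T hlim
  have hE2 : ∀ᶠ x : ℝ in atTop, (L0 : ℝ) + 1 ≤ x ^ E := (tendsto_rpow_atTop hE0).eventually_ge_atTop _
  have h1 := (Metric.tendsto_nhds.1 hlim) 1 one_pos
  filter_upwards [h1, hzθ, logN'.eventually hE2, logN'.eventually_gt_atTop 1, eventually_ge_atTop 1]
    with x g1 g2 g3 g4 g5
  have hx0 : (0 : ℝ) < x := by exact_mod_cast g5
  obtain ⟨l, hl⟩ : ∃ l : ℝ, l = Real.log x := ⟨_, rfl⟩
  rw [← hl] at g1 g2 g3 g4 ⊢
  have hl0 : 0 < l := by linarith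
  have hX0 : 0 < (x : ℝ) * l := by positivity
  obtain ⟨U, hU⟩ : ∃ U : ℝ, U = ∑ n ∈ range x, wt P z (n + 1) * ((ag T n : ℝ) + 1) := ⟨_, rfl⟩
  rw [← hU, Real.dist_eq] at g1
  have hU2 : U ≤ 2 * (x * l) := by
    have := (abs_lt.1 g1).2
    have h2 : U / (x * l) < 2 := by linarith
    rw [div_lt_iff₀ hX0] at h2
    exact h2.le
  have hlong : ∀ m i, m + i ≤ x → l ^ E ≤ (i : ℝ) → c * i ≤ ∑ t ∈ Ioc m (m + i), wt P z t := by
    intro m i hmi hi
    apply HLS P hP z hz m i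
    · have : (L0 : ℝ) ≤ i := by linarith
      exact_mod_cast this
    · calc (z (m + i) : ℝ) ≤ z x := by exact_mod_cast hz hmi
        _ ≤ l ^ θ := g2
        _ < l ^ (E * κ) := Real.rpow_lt_rpow_of_exponent_lt g4 hEκ
        _ = (l ^ E) ^ κ := Real.rpow_mul hl0.le _ _
        _ ≤ (i : ℝ) ^ κ := Real.rpow_le_rpow (by positivity) hi hκ0.le
  have h2 := runs_low T (wt P z) (wt_nonneg P z) c (l ^ E) hc.le (by positivity) x hlong x le_rfl
  rw [← hU] at h2
  have h3 := J_nonneg T (wt P z) (wt_nonneg P z) x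
  have hlE : l ^ E ≤ l := by
    calc l ^ E ≤ l ^ (1 : ℝ) := Real.rpow_le_rpow_of_exponent_le g4.le hE1.le
      _ = l := Real.rpow_one l
  have h4 : c * l ^ E * ((x : ℝ) - ag T x) ≤ c * (x * l) := by
    have h5 : (x : ℝ) - ag T x ≤ x := by
      have : (0 : ℝ) ≤ ag T x := Nat.cast_nonneg _
      linarith
    have h6 : 0 ≤ l ^ E := by positivity
    calc c * l ^ E * ((x : ℝ) - ag T x) ≤ c * l ^ E * x := by gcongr
      _ ≤ c * l * x := by gcongr
      _ = c * (x * l) := by ring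
  have h5 : c / 4 * Q T x ≤ (2 + c) * (x * l) := by linarith
  calc Q T x = 4 / c * (c / 4 * Q T x) := by field_simp
    _ ≤ 4 / c * ((2 + c) * (x * l)) := by gcongr
    _ = _ := by ring

end Pool.Agent.J6H15.SQ
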