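import Mathlib
import Pool.Agent.J6H15.SQ.Long

/-! # Gaps in sequential random models with an arbitrary sieve up to `n ^ o(1)` -/

set_option autoImplicit false
set_option linter.unusedSectionVars false

open MeasureTheory Filter Finset
open scoped Topology

namespace Pool.Agent.J6H15.SQ

open Pool.Agent.J6H13.UM
open Pool.Agent.J6H15.SM
open Pool.Agent.R528.RM

theorem gen_main (ε : ℝ) (hε : 0 < ε) : ∃ C : ℝ, 0 < C ∧ ∀ z : ℕ → ℕ, Monotone z →
    (∀ δ : ℝ, 0 < δ → ∀ᶠ n : ℕ in atTop, (z n : ℝ) ≤ (n : ℝ) ^ δ) →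
    ∀ {Ω : Type} {m0 : MeasurableSpace Ω} {μ : Measure Ω} [IsProbabilityMeasure μ]
      {ℱ : Filtration ℕ m0} {A : ℕ → Set Ω}, (∀ n, MeasurableSet[ℱ n] (A n)) →
      (∀ n, ¬ Rough Set.univ z n → A n = ∅) →
      (∀ᵐ ω ∂μ, Tendsto (fun n : ℕ => dens μ ℱ A n ω * Real.log n / W Set.univ (z (n + 1)))
        (atTop ⊓ 𝓟 {n : ℕ | Rough Set.univ z (n + 1)}) (𝓝 1)) →
      ∀ᵐ ω ∂μ, ∀ᶠ m : ℕ in atTop, ∃ n, ω ∈ A n ∧ m < n ∧
        (n : ℝ) ≤ m + C * Real.log m ^ 2 + (z (2 * m) : ℝ) ^ (2 + ε) := by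
  obtain ⟨κ, hκ⟩ : ∃ κ : ℝ, κ = (1 / (2 + ε) + 1 / 2) / 2 := ⟨_, rfl⟩
  have hi0 : 0 < 1 / (2 + ε) := by positivity
  have hi1 : 1 / (2 + ε) < 1 / 2 := by
    apply one_div_lt_one_div_of_lt (by norm_num)
    linarith
  have hκ0 : 0 < κ := by rw [hκ]; linarith
  have hκ1 : κ < 1 / 2 := by rw [hκ]; linarith
  have hκ2 : 1 / (2 + ε) < κ := by rw [hκ]; linarith
  obtain ⟨c, hc, L0, HLS⟩ := long_sum κ hκ0 hκ1
  obtain ⟨δ0, hδ0, HW⟩ := W_small
  refine ⟨16 / c + 1, by positivity, ?_⟩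
  intro z hz hzs Ω m0 μ _ ℱ A hA hcop hd
  have hV := HW Set.univ z (hzs δ0 hδ0)
  have hprof := profile Set.univ z hV hcop hd
  obtain ⟨L, hL⟩ : ∃ L : ℕ → ℕ, L = fun m : ℕ => ⌊(16 / c + 1) * Real.log m ^ 2 + (z (2 * m) : ℝ) ^ (2 + ε)⌋₊ :=
    ⟨_, rfl⟩
  -- the length of the blocks
  have hLm : ∀ᶠ m : ℕ in atTop, L m ≤ m := by
    have h1 := (isLittleO_log_rpow_rpow_atTop (2 : ℝ) (show (0 : ℝ) < 1 by norm_num)).bound
      (show (0 : ℝ) < 1 / (2 * (16 / c + 1)) by positivity)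
    obtain ⟨δ, hδ⟩ : ∃ δ : ℝ, δ = 1 / (2 * (2 + ε)) := ⟨_, rfl⟩
    have hδ1 : 0 < δ := by rw [hδ]; positivity
    have h2 := (tendsto_atTop_mono (fun m : ℕ => by omega : ∀ m : ℕ, m ≤ 2 * m) tendsto_id).eventually (hzs δ hδ1)
    filter_upwards [tendsto_natCast_atTop_atTop.eventually h1, logN'.eventually_ge_atTop 1, h2,
      eventually_ge_atTop 8] with m g1 g2 g3 g4
    have hm8 : (8 : ℝ) ≤ m := by exact_mod_cast g4
    rw [Real.norm_eq_abs, Real.norm_eq_abs, abs_of_nonneg (Real.rpow_nonneg (by linarith) _),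
      abs_of_nonneg (Real.rpow_nonneg (Nat.cast_nonneg m) _), Real.rpow_one, show (2 : ℝ) = ((2 : ℕ) : ℝ) by norm_num,
      Real.rpow_natCast] at g1
    have g5 : (16 / c + 1) * Real.log (m : ℝ) ^ 2 ≤ m / 2 := by
      calc (16 / c + 1) * Real.log (m : ℝ) ^ 2 ≤ (16 / c + 1) * (1 / (((2 : ℕ) : ℝ) * (16 / c + 1)) * m) := by gcongr
        _ = m / 2 := by
          push_cast
          field_simp
    have g6 : (z (2 * m) : ℝ) ^ (2 + ε) ≤ m / 2 := by
      calc (z (2 * m) : ℝ) ^ (2 + ε) ≤ (((2 * m : ℕ) : ℝ) ^ δ) ^ (2 + ε) :=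
            Real.rpow_le_rpow (Nat.cast_nonneg _) g3 (by linarith)
        _ = ((2 * m : ℕ) : ℝ) ^ (1 / 2 : ℝ) := by
            rw [← Real.rpow_mul (Nat.cast_nonneg _), hδ]
            congr 1
            field_simp
        _ = √((2 * m : ℕ) : ℝ) := by rw [Real.sqrt_eq_rpow]
        _ ≤ √(((m : ℝ) / 2) ^ 2) := by
            apply Real.sqrt_le_sqrt
            push_cast
            nlinarith
        _ = m / 2 := Real.sqrt_sq (by linarith)
    have g7 : (L m : ℝ) ≤ m := by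
      rw [hL]
      refine (Nat.floor_le ?_).trans (by linarith)
      positivity
    exact_mod_cast g7
  have hsum : ∀ᶠ m : ℕ in atTop, 4 * Real.log m ≤ ∑ n ∈ Finset.Ioc m (m + L m), rho1 Set.univ z n := by
    have hpow : ∀ᶠ x : ℝ in atTop, (x + 1) ^ (1 / (2 + ε)) < x ^ κ := by
      have h1 := (tendsto_rpow_atTop (show 0 < κ - 1 / (2 + ε) by linarith)).eventually_gt_atTop
        ((2 : ℝ) ^ (1 / (2 + ε)))
      filter_upwards [h1, eventually_ge_atTop 1] with x g1 g2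
      have hx0 : 0 < x := by linarith
      calc (x + 1) ^ (1 / (2 + ε)) ≤ (2 * x) ^ (1 / (2 + ε)) :=
            Real.rpow_le_rpow (by linarith) (by linarith) hi0.le
        _ = (2 : ℝ) ^ (1 / (2 + ε)) * x ^ (1 / (2 + ε)) := Real.mul_rpow (by norm_num) hx0.le
        _ < x ^ (κ - 1 / (2 + ε)) * x ^ (1 / (2 + ε)) := by
            have : 0 < x ^ (1 / (2 + ε)) := by positivity
            gcongr
        _ = x ^ κ := by
            rw [← Real.rpow_add hx0]
            congr 1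
            ring
    obtain ⟨x0, hx0⟩ := eventually_atTop.1 hpow
    filter_upwards [hLm, eventually_forall_ge_atTop.2 hV, logN'.eventually_ge_atTop (max (max 1 (x0 + 1)) ((L0 : ℝ) + 1)),
      eventually_ge_atTop 2] with m g1 g2 g3 g4
    obtain ⟨l, hl⟩ : ∃ l : ℝ, l = Real.log m := ⟨_, rfl⟩
    rw [← hl] at g3 ⊢
    have hl1 : 1 ≤ l := ((le_max_left _ _).trans (le_max_left _ _)).trans g3
    have hlx : x0 + 1 ≤ l := ((le_max_right _ _).trans (le_max_left _ _)).trans g3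
    have hlL : (L0 : ℝ) + 1 ≤ l := (le_max_right _ _).trans g3
    have hm2 : (2 : ℝ) ≤ m := by exact_mod_cast g4
    have hz0 : 0 ≤ (z (2 * m) : ℝ) ^ (2 + ε) := by positivity
    have hLge : (16 / c + 1) * l ^ 2 + (z (2 * m) : ℝ) ^ (2 + ε) - 1 ≤ L m := by
      rw [hL, hl]
      exact (Nat.sub_one_lt_floor _).le
    have hll : l ≤ l ^ 2 := by nlinarith
    have h16 : 16 / c * l ^ 2 ≤ L m := by
      have : 1 ≤ l ^ 2 := by linarith
      have e : (16 / c + 1) * l ^ 2 = 16 / c * l ^ 2 + l ^ 2 := by ring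
      linarith
    have hLl : l ≤ (L m : ℝ) + 1 := by
      have : 0 ≤ 16 / c * l ^ 2 := by positivity
      have e : (16 / c + 1) * l ^ 2 = 16 / c * l ^ 2 + l ^ 2 := by ring
      linarith
    have hLl2 : l ^ 2 - 1 ≤ L m := by
      have : 0 ≤ 16 / c * l ^ 2 := by positivity
      have e : (16 / c + 1) * l ^ 2 = 16 / c * l ^ 2 + l ^ 2 := by ring
      linarith
    have hL1 : l - 1 ≤ L m := by nlinarith
    have hLx : x0 ≤ (L m : ℝ) := by linarith
    have hLL0 : L0 ≤ L m := by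
      have : (L0 : ℝ) ≤ L m := by linarith
      exact_mod_cast this
    have hzL : (z (m + L m) : ℝ) < (L m : ℝ) ^ κ := by
      have k1 : (z (m + L m) : ℝ) ≤ z (2 * m) := by exact_mod_cast hz (by omega : m + L m ≤ 2 * m)
      have k2 : (z (2 * m) : ℝ) ^ (2 + ε) ≤ (L m : ℝ) + 1 := by
        have : 0 ≤ (16 / c + 1) * l ^ 2 := by positivity
        linarith
      have k3 : (z (2 * m) : ℝ) ≤ ((L m : ℝ) + 1) ^ (1 / (2 + ε)) := by
        calc (z (2 * m) : ℝ) = ((z (2 * m) : ℝ) ^ (2 + ε)) ^ (1 / (2 + ε)) := by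
              rw [← Real.rpow_mul (Nat.cast_nonneg _), mul_one_div_cancel (by linarith), Real.rpow_one]
          _ ≤ _ := Real.rpow_le_rpow hz0 k2 hi0.le
      exact lt_of_le_of_lt (k1.trans k3) (hx0 _ hLx)
    have hS := HLS Set.univ (fun q _ => Set.mem_univ q) z hz m (L m) hLL0 hzL
    have hrho : ∀ n ∈ Finset.Ioc m (m + L m), wt Set.univ z n / (2 * l) ≤ rho1 Set.univ z n := by
      intro n hn
      rw [Finset.mem_Ioc] at hn
      have k3 : (m : ℝ) < n := by exact_mod_cast hn.1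
      have k0 : 0 < Real.log (n : ℝ) := Real.log_pos (by linarith)
      have k4 : (n : ℝ) ≤ (m : ℝ) ^ 2 := by
        have k5 : (n : ℝ) ≤ 2 * m := by
          have : n ≤ 2 * m := by omega
          exact_mod_cast this
        nlinarith
      have k5 := Real.log_le_log (by linarith) k4
      rw [Real.log_pow] at k5
      have k6 : Real.log (n : ℝ) ≤ 2 * l := by
        rw [hl]
        exact_mod_cast k5
      rw [rho1_wt Set.univ z n (g2 n hn.1.le)]
      have := wt_nonneg Set.univ z n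
      gcongr
    have hl0 : 0 < l := by linarith
    calc 4 * l ≤ c * (16 / c * l ^ 2) / (2 * l) := by
          have e : c * (16 / c * l ^ 2) / (2 * l) = 8 * l := by
            field_simp
            ring
          rw [e]
          linarith
      _ ≤ c * L m / (2 * l) := by gcongr
      _ ≤ (∑ n ∈ Finset.Ioc m (m + L m), wt Set.univ z n) / (2 * l) := by gcongr
      _ = ∑ n ∈ Finset.Ioc m (m + L m), wt Set.univ z n / (2 * l) := by rw [sum_div]
      _ ≤ _ := sum_le_sum hrho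
  have h5 := fin_gen hA (rho1 Set.univ z) (rho1_bounds Set.univ z) hprof L hsum
  filter_upwards [h5] with ω hω
  filter_upwards [hω] with m h6
  obtain ⟨n, h8, h9, h10⟩ := h6
  refine ⟨n, h10, h8, ?_⟩
  have h11 : (n : ℝ) ≤ (m : ℝ) + (L m : ℝ) := by exact_mod_cast h9
  have h12 : (L m : ℝ) ≤ (16 / c + 1) * Real.log m ^ 2 + (z (2 * m) : ℝ) ^ (2 + ε) := by
    rw [hL]
    exact Nat.floor_le (by positivity)
  linarith

end Pool.Agent.J6H15.SQ
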