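import Mathlib
import Pool.Agent.J6H15.SQ.Long

/-! # The order of magnitude of the sum of the squares of the gaps -/

set_option autoImplicit false
set_option linter.unusedSectionVars false

open MeasureTheory Filter Finset
open scoped ENNReal Topology

namespace Pool.Agent.J6H15.SQ

open Pool.Agent.R528.RM
open Pool.Agent.J6H15.SM
open Pool.Agent.J6H13.UM

theorem sq_up (θ : ℝ) (hθ : θ < 1 / 2) : ∃ C : ℝ, 0 < C ∧ ∀ (P : Set ℕ),
    (∀ q : ℕ, q.Prime → q ∈ P) → ∀ z : ℕ → ℕ, Monotone z →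
    (∀ᶠ n : ℕ in atTop, (z n : ℝ) ≤ Real.log n ^ θ) →
    ∀ {Ω : Type} {m0 : MeasurableSpace Ω} {μ : Measure Ω} [IsProbabilityMeasure μ]
      {ℱ : Filtration ℕ m0} {A : ℕ → Set Ω}, (∀ n, MeasurableSet[ℱ n] (A n)) →
      (∀ n, ¬ Rough P z n → A n = ∅) →
      (∀ᵐ ω ∂μ, Tendsto (fun n : ℕ => dens μ ℱ A n ω * Real.log n / W P (z (n + 1)))
        (atTop ⊓ 𝓟 {n : ℕ | Rough P z (n + 1)}) (𝓝 1)) →
      ∀ᵐ ω ∂μ, (∀ᶠ x : ℕ in atTop, Q {k | ω ∈ A k} x ≤ C * (x * Real.log x)) ∧ ∃ n, ω ∈ A n := by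
  obtain ⟨θ', hθ'⟩ : ∃ θ' : ℝ, θ' = max θ (1 / 4) := ⟨_, rfl⟩
  have h1 : 0 < θ' := by
    rw [hθ']
    exact lt_of_lt_of_le (by norm_num) (le_max_right _ _)
  have h2 : θ' < 1 / 2 := by
    rw [hθ']
    exact max_lt hθ (by norm_num)
  obtain ⟨C, hC, H⟩ := det_up_sq θ' h1 h2
  obtain ⟨C₂, hC₂, H2⟩ := cra_sum θ' 2 h1 le_rfl (by linarith)
  refine ⟨C, hC, ?_⟩
  intro P hP z hz hzθ Ω m0 μ _ ℱ A hA hcop hd
  have hzθ' : ∀ᶠ n : ℕ in atTop, (z n : ℝ) ≤ Real.log n ^ θ' := by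
    filter_upwards [hzθ, logN'.eventually_ge_atTop 1] with n h3 h4
    refine h3.trans (Real.rpow_le_rpow_of_exponent_le h4 ?_)
    rw [hθ']
    exact le_max_left _ _
  have hV : ∀ᶠ n : ℕ in atTop, W P (z n) / Real.log n < 1 := by
    apply short P ⌈θ'⌉₊ z
    filter_upwards [hzθ', logN'.eventually_ge_atTop 1] with n h1 h2
    calc (z n : ℝ) ≤ Real.log n ^ θ' := h1
      _ ≤ Real.log n ^ ((⌈θ'⌉₊ : ℕ) : ℝ) := Real.rpow_le_rpow_of_exponent_le h2 (Nat.le_ceil θ')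
      _ = _ := Real.rpow_natCast _ _
  have h3 := H2 P hP z hz hzθ'
  have hprof := profile P z hV hcop hd
  have h5 := fin_gen hA (rho1 P z) (rho1_bounds P z) hprof (blE C₂ 2) h3
  have hblk : ∀ m : ℕ, blE C₂ 2 m = blk C₂ m := by
    intro m
    unfold blE blk
    rw [show (2 : ℝ) = ((2 : ℕ) : ℝ) by norm_num, Real.rpow_natCast]
  simp only [hblk] at h5
  filter_upwards [renewalC (μ := μ) C₂ hC₂ hA h5, hprof, h5] with ω k1 k2 k3
  have k4 := to_rho (fun n => (ag {k | ω ∈ A k} n : ℝ) + 1) (fun n => dens μ ℱ A n ω) (fun n => rho1 P z (n + 1))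
    (fun n => by positivity) (fun n => (rho1_bounds P z (n + 1)).1) k2 k1
  have k5 := to_log (fun n => (ag {k | ω ∈ A k} n : ℝ) + 1) (fun n => rho1 P z (n + 1))
    (fun n => by positivity) (fun n => (rho1_bounds P z (n + 1)).1) k4
  refine ⟨H P hP z hz hzθ' {k | ω ∈ A k} (wt_lim {k | ω ∈ A k} P z hV k5), ?_⟩
  obtain ⟨m, n, -, -, h6⟩ := k3.exists
  exact ⟨n, h6⟩

end Pool.Agent.J6H15.SQ
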