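import Mathlib
import Pool.Agent.J6H15.SQ.Up

/-! # The lower bound for the sum of the squares of the gaps -/

set_option autoImplicit false
set_option linter.unusedSectionVars false

open MeasureTheory Filter Finset
open scoped ENNReal Topology

namespace Pool.Agent.J6H15.SQ

open Pool.Agent.R528.RM
open Pool.Agent.J6H15.SM
open Pool.Agent.J6H13.UM

lemma sum_wt_up (θ : ℝ) (hθ : 0 < θ) (P : Set ℕ) (z : ℕ → ℕ) (hz : Monotone z)
    (hzθ : ∀ᶠ n : ℕ in atTop, (z n : ℝ) ≤ Real.log n ^ θ) :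
    ∀ᶠ x : ℕ in atTop, ∑ n ∈ Ioc 0 x, wt P z n ≤ 2 * x := by
  obtain ⟨K, B, hK, HB⟩ := block_sum (1 / 2) (by norm_num)
  obtain ⟨c, hc⟩ : ∃ c : ℝ, c = 1 / (2 ^ (B + 1) * (K + 1)) := ⟨_, rfl⟩
  have hc0 : 0 < c := by rw [hc]; positivity
  have h1 := (isLittleO_log_rpow_rpow_atTop (θ * B) (show (0 : ℝ) < 1 by norm_num)).bound hc0
  filter_upwards [tendsto_natCast_atTop_atTop.eventually h1, logN'.eventually_ge_atTop 1, hzθ] with x h2 h3 h4
  rw [Real.norm_eq_abs, Real.norm_eq_abs, abs_of_nonneg (Real.rpow_nonneg (by linarith) _),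
    abs_of_nonneg (Real.rpow_nonneg (Nat.cast_nonneg x) _), Real.rpow_one] at h2
  have h5 := HB P z hz 0 x
  rw [zero_add] at h5
  have hy : 1 ≤ Real.log (x : ℝ) ^ θ := Real.one_le_rpow h3 hθ.le
  have h6 : K * ((z x : ℝ) + 1) ^ B ≤ x / 2 := by
    calc K * ((z x : ℝ) + 1) ^ B ≤ (K + 1) * (2 * Real.log (x : ℝ) ^ θ) ^ B := by
          gcongr
          · linarith
          · linarith
      _ = (K + 1) * 2 ^ B * Real.log (x : ℝ) ^ (θ * B) := by
          rw [mul_pow, ← Real.rpow_natCast (Real.log (x : ℝ) ^ θ), ← Real.rpow_mul (by linarith)]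
          ring
      _ ≤ (K + 1) * 2 ^ B * (c * x) := by gcongr
      _ = x / 2 := by
          rw [hc, pow_succ]
          field_simp
  have h7 := (abs_le.1 h5).2
  linarith

lemma rho_sum_up (θ : ℝ) (hθ : 0 < θ) (P : Set ℕ) (z : ℕ → ℕ) (hz : Monotone z)
    (hzθ : ∀ᶠ n : ℕ in atTop, (z n : ℝ) ≤ Real.log n ^ θ) (hV : ∀ᶠ n : ℕ in atTop, W P (z n) / Real.log n < 1) :
    ∀ᶠ x : ℕ in atTop, ∑ n ∈ range x, rho1 P z (n + 1) ≤ 5 * (x / Real.log x) := by
  obtain ⟨N, hN⟩ := eventually_atTop.1 hV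
  have h1 := (isLittleO_log_rpow_rpow_atTop (1 : ℝ) (show (0 : ℝ) < 1 / 2 by norm_num)).bound one_pos
  filter_upwards [sum_wt_up θ hθ P z hz hzθ, tendsto_natCast_atTop_atTop.eventually h1,
    logN'.eventually_ge_atTop 1, eventually_ge_atTop ((N + 1) ^ 2), eventually_ge_atTop 4] with x h2 h3 h4 h5 h6
  have hx0 : (0 : ℝ) < x := by
    have : 0 < x := by omega
    exact_mod_cast this
  rw [Real.norm_eq_abs, Real.norm_eq_abs, abs_of_nonneg (Real.rpow_nonneg (by linarith) _),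
    abs_of_nonneg (Real.rpow_nonneg (Nat.cast_nonneg x) _), Real.rpow_one, one_mul, ← Real.sqrt_eq_rpow] at h3
  obtain ⟨l, hl⟩ : ∃ l : ℝ, l = Real.log x := ⟨_, rfl⟩
  rw [← hl] at h3 h4 ⊢
  have hl0 : 0 < l := by linarith
  obtain ⟨y, hy⟩ : ∃ y, y = Nat.sqrt x := ⟨_, rfl⟩
  have hyx : y ≤ x := by rw [hy]; exact Nat.sqrt_le_self x
  have hyN : N ≤ y := by
    have : N + 1 ≤ Nat.sqrt x := Nat.le_sqrt'.2 h5
    omega
  have hy2 : (y : ℝ) ≤ √(x : ℝ) := by
    rw [hy]
    exact Real.nat_sqrt_le_real_sqrt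
  have hy3 : (x : ℝ) ≤ ((y : ℝ) + 1) ^ 2 := by
    have := Nat.lt_succ_sqrt' x
    rw [← hy] at this
    have h7 : x ≤ (y + 1) ^ 2 := this.le
    exact_mod_cast h7
  have hlogy : l / 2 ≤ Real.log ((y : ℝ) + 1) := by
    have h7 := Real.log_le_log hx0 hy3
    rw [Real.log_pow] at h7
    push_cast at h7
    rw [hl]
    linarith
  have e1 : ∑ n ∈ range x, rho1 P z (n + 1) = ∑ n ∈ range y, rho1 P z (n + 1) + ∑ n ∈ Ico y x, rho1 P z (n + 1) :=
    (sum_range_add_sum_Ico _ hyx).symm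
  have e2 : ∑ n ∈ range y, rho1 P z (n + 1) ≤ x / l := by
    calc ∑ n ∈ range y, rho1 P z (n + 1) ≤ ∑ n ∈ range y, (1 : ℝ) := sum_le_sum fun n _ => (rho1_bounds P z _).2
      _ = y := by simp
      _ ≤ √(x : ℝ) := hy2
      _ ≤ x / l := by
          rw [le_div_iff₀ hl0]
          calc √(x : ℝ) * l ≤ √(x : ℝ) * √(x : ℝ) := by gcongr
            _ = x := Real.mul_self_sqrt hx0.le
  have e3 : ∑ n ∈ Ico y x, rho1 P z (n + 1) ≤ 4 * (x / l) := by
    calc ∑ n ∈ Ico y x, rho1 P z (n + 1) ≤ ∑ n ∈ Ico y x, wt P z (n + 1) * (2 / l) := by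
          apply sum_le_sum
          intro n hn
          rw [mem_Ico] at hn
          rw [rho1_wt P z (n + 1) (hN (n + 1) (by omega))]
          have h7 : l / 2 ≤ Real.log ((n + 1 : ℕ) : ℝ) := by
            refine hlogy.trans (Real.log_le_log (by positivity) ?_)
            push_cast
            have : (y : ℝ) ≤ n := by exact_mod_cast hn.1
            linarith
          rw [div_eq_mul_inv]
          have h8 : (Real.log ((n + 1 : ℕ) : ℝ))⁻¹ ≤ 2 / l := by
            rw [inv_le_comm₀ (by linarith [half_pos hl0]) (by positivity), inv_div]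
            exact h7
          exact mul_le_mul_of_nonneg_left h8 (wt_nonneg P z _)
      _ = (∑ n ∈ Ico y x, wt P z (n + 1)) * (2 / l) := by rw [sum_mul]
      _ ≤ (2 * x) * (2 / l) := by
          gcongr
          refine le_trans ?_ h2
          have h9 : ∑ n ∈ Ioc 0 x, wt P z n = ∑ n ∈ range x, wt P z (n + 1) := by
            symm
            refine sum_nbij' (fun i => i + 1) (fun t => t - 1) ?_ ?_ ?_ ?_ ?_
            · intro i hi
              rw [mem_range] at hi
              rw [mem_Ioc]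
              omega
            · intro t ht
              rw [mem_Ioc] at ht
              rw [mem_range]
              omega
            · intro i hi
              show i + 1 - 1 = i
              omega
            · intro t ht
              rw [mem_Ioc] at ht
              show t - 1 + 1 = t
              omega
            · intro i _
              rfl
          rw [h9]
          apply sum_le_sum_of_subset_of_nonneg
          · intro n hn
            rw [mem_Ico] at hn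
            rw [mem_range]
            exact hn.2
          · intro n _ _
            exact wt_nonneg P z _
      _ = 4 * (x / l) := by ring
  rw [e1]
  linarith

section

variable {Ω : Type} {m0 : MeasurableSpace Ω} {μ : Measure Ω} [IsProbabilityMeasure μ]
  {ℱ : Filtration ℕ m0} {A : ℕ → Set Ω}

theorem azuma_one (hA : ∀ n, MeasurableSet[ℱ n] (A n)) : ∀ᵐ ω ∂μ, ∀ᶠ x : ℕ in atTop,
    |Sw μ ℱ A 0 (fun _ _ => 1) x ω| < 2 * √(x * Real.log x) := by
  have hsum : Summable (fun n : ℕ => 2 * ((n : ℝ) ^ 2)⁻¹) :=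
    (Real.summable_nat_pow_inv.2 (by norm_num)).mul_left 2
  have h1 : ∀ᶠ x : ℕ in atTop,
      μ.real {ω | 2 * √(x * Real.log x) ≤ |Sw μ ℱ A 0 (fun _ _ => 1) x ω|} ≤ 2 * ((x : ℝ) ^ 2)⁻¹ := by
    filter_upwards [logN'.eventually_gt_atTop 0, eventually_ge_atTop 2] with x h2 h3
    have hx0 : (0 : ℝ) < x := by
      have : 0 < x := by omega
      exact_mod_cast this
    have h4 := Sw_tail (μ := μ) hA 0 (fun _ _ => (1 : ℝ)) (fun _ => stronglyMeasurable_const)
      (fun _ _ => by rw [abs_one]) x (by omega) (lam := 2 * √(x * Real.log x)) (by positivity)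
    refine h4.trans (le_of_eq ?_)
    congr 1
    have e1 : (2 * √((x : ℝ) * Real.log x)) ^ 2 / (2 * x) = 2 * Real.log x := by
      rw [mul_pow, Real.sq_sqrt (by positivity)]
      field_simp
    rw [e1, Real.exp_neg, show 2 * Real.log (x : ℝ) = Real.log (x : ℝ) + Real.log x by ring, Real.exp_add,
      Real.exp_log hx0]
    ring
  filter_upwards [bc_real hsum h1] with ω hω
  filter_upwards [hω] with x hx
  exact not_le.1 hx

open Classical in
theorem cnt_up (hA : ∀ n, MeasurableSet[ℱ n] (A n)) (θ : ℝ) (hθ : 0 < θ) (P : Set ℕ) (z : ℕ → ℕ) (hz : Monotone z)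
    (hzθ : ∀ᶠ n : ℕ in atTop, (z n : ℝ) ≤ Real.log n ^ θ) (hV : ∀ᶠ n : ℕ in atTop, W P (z n) / Real.log n < 1)
    (hprof : ∀ᵐ ω ∂μ, ∀ ε : ℝ, 0 < ε → ∀ᶠ n : ℕ in atTop,
      |dens μ ℱ A n ω - rho1 P z (n + 1)| ≤ ε * rho1 P z (n + 1)) :
    ∀ᵐ ω ∂μ, ∀ᶠ x : ℕ in atTop,
      ∑ n ∈ range x, (if ω ∈ A (n + 1) then (1 : ℝ) else 0) ≤ 12 * (x / Real.log x) := by
  filter_upwards [azuma_one (μ := μ) hA, hprof] with ω h1 h2
  obtain ⟨N, hN⟩ := eventually_atTop.1 (h2 1 one_pos)
  obtain ⟨K, hK⟩ : ∃ K : ℝ, K = ∑ n ∈ range N, |dens μ ℱ A n ω| := ⟨_, rfl⟩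
  have g1 := (isLittleO_log_rpow_rpow_atTop (3 / 2 : ℝ) (show (0 : ℝ) < 1 / 2 by norm_num)).bound
    (show (0 : ℝ) < 1 / 2 by norm_num)
  have g2 := (isLittleO_log_rpow_rpow_atTop (1 : ℝ) (show (0 : ℝ) < 1 by norm_num)).bound
    (show (0 : ℝ) < 1 / (|K| + 1) by positivity)
  filter_upwards [h1, rho_sum_up θ hθ P z hz hzθ hV, tendsto_natCast_atTop_atTop.eventually g1,
    tendsto_natCast_atTop_atTop.eventually g2,
    logN'.eventually_ge_atTop 1, eventually_ge_atTop (max 2 N)] with x h3 h4 h5 h6 h7 h8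
  have hx2 : 2 ≤ x := (le_max_left _ _).trans h8
  have hxN : N ≤ x := (le_max_right _ _).trans h8
  have hx0 : (0 : ℝ) < x := by
    have : 0 < x := by omega
    exact_mod_cast this
  rw [Real.norm_eq_abs, Real.norm_eq_abs, abs_of_nonneg (Real.rpow_nonneg (by linarith) _),
    abs_of_nonneg (Real.rpow_nonneg (Nat.cast_nonneg x) _)] at h5 h6
  rw [Real.rpow_one, Real.rpow_one] at h6
  obtain ⟨l, hl⟩ : ∃ l : ℝ, l = Real.log x := ⟨_, rfl⟩
  rw [← hl] at h3 h4 h5 h6 h7 ⊢
  have hl0 : 0 < l := by linarith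
  have hKx : K ≤ x / l := by
    rw [le_div_iff₀ hl0]
    have h9 : (|K| + 1) * l ≤ x := by
      calc (|K| + 1) * l ≤ (|K| + 1) * (1 / (|K| + 1) * x) := by gcongr
        _ = x := by field_simp
    have h10 := le_abs_self K
    nlinarith
  have hSx : 2 * √((x : ℝ) * l) ≤ x / l := by
    rw [le_div_iff₀ hl0, Real.sqrt_mul hx0.le]
    rw [show (3 / 2 : ℝ) = 1 + 1 / 2 by norm_num, Real.rpow_add hl0, Real.rpow_one, ← Real.sqrt_eq_rpow,
      ← Real.sqrt_eq_rpow] at h5
    calc 2 * (√(x : ℝ) * √l) * l = 2 * √(x : ℝ) * (l * √l) := by ring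
      _ ≤ 2 * √(x : ℝ) * (1 / 2 * √(x : ℝ)) := by gcongr
      _ = √(x : ℝ) * √(x : ℝ) := by ring
      _ = x := Real.mul_self_sqrt hx0.le
  have e1 : ∑ n ∈ range x, (if ω ∈ A (n + 1) then (1 : ℝ) else 0) =
      Sw μ ℱ A 0 (fun _ _ => 1) x ω + ∑ n ∈ range x, dens μ ℱ A n ω := by
    unfold Sw
    rw [← sum_add_distrib]
    apply sum_congr rfl
    intro n _
    rw [zero_add]
    by_cases h : ω ∈ A (n + 1)
    · rw [if_pos h, Set.indicator_of_mem h]
      ring
    · rw [if_neg h, Set.indicator_of_notMem h]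
      ring
  have e2 : ∑ n ∈ range x, dens μ ℱ A n ω ≤ K + 2 * ∑ n ∈ range x, rho1 P z (n + 1) := by
    have h9 : ∀ n ∈ range x, dens μ ℱ A n ω ≤ (if n < N then |dens μ ℱ A n ω| else 0) + 2 * rho1 P z (n + 1) := by
      intro n _
      have hr := (rho1_bounds P z (n + 1)).1
      split_ifs with h10
      · have := le_abs_self (dens μ ℱ A n ω)
        linarith
      · have := (abs_le.1 (hN n (by omega))).2
        linarith
    refine (sum_le_sum h9).trans ?_
    rw [sum_add_distrib, ← mul_sum]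
    have h10 : ∑ n ∈ range x, (if n < N then |dens μ ℱ A n ω| else 0) = K := by
      rw [← sum_filter, hK]
      congr 1
      ext n
      rw [mem_filter, mem_range, mem_range]
      omega
    rw [h10]
  rw [e1]
  have h11 := (abs_lt.1 h3).2
  linarith

end

/-- the lower bound -/
theorem det_low_sq (T : Set ℕ) (N : ℕ → ℝ) (hN0 : ∀ x, N x = ∑ n ∈ range x, Set.indicator T (fun _ => (1 : ℝ)) (n + 1))
    (hN : ∀ᶠ x : ℕ in atTop, N x ≤ 12 * (x / Real.log x))
    (hag : ∀ᶠ x : ℕ in atTop, (ag T x : ℝ) ≤ x / 2) :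
    ∀ᶠ x : ℕ in atTop, 1 / 48 * (x * Real.log x) ≤ Q T x := by
  classical
  filter_upwards [hN, hag, logN'.eventually_gt_atTop 0, eventually_ge_atTop 1] with x h1 h2 h3 h4
  have hx0 : (0 : ℝ) < x := by exact_mod_cast h4
  have h5 := sum_first T x
  have h6 : (∑ n ∈ range x, (if n + 1 ∈ T then ((ag T n : ℝ) + 1) else 0)) ^ 2 ≤ N x * Q T x := by
    have h7 := sum_mul_sq_le_sq_mul_sq (range x) (fun n => Set.indicator T (fun _ => (1 : ℝ)) (n + 1))
      (fun n => if n + 1 ∈ T then ((ag T n : ℝ) + 1) else 0)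
    have e1 : ∑ n ∈ range x, Set.indicator T (fun _ => (1 : ℝ)) (n + 1) *
        (if n + 1 ∈ T then ((ag T n : ℝ) + 1) else 0) = ∑ n ∈ range x, (if n + 1 ∈ T then ((ag T n : ℝ) + 1) else 0) := by
      apply sum_congr rfl
      intro n _
      by_cases h : n + 1 ∈ T
      · rw [Set.indicator_of_mem h, one_mul]
      · rw [if_neg h, mul_zero]
    have e2 : ∑ n ∈ range x, (Set.indicator T (fun _ => (1 : ℝ)) (n + 1)) ^ 2 = N x := by
      rw [hN0]
      apply sum_congr rfl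
      intro n _
      by_cases h : n + 1 ∈ T
      · rw [Set.indicator_of_mem h, one_pow]
      · rw [Set.indicator_of_notMem h]
        norm_num
    have e3 : ∑ n ∈ range x, (if n + 1 ∈ T then ((ag T n : ℝ) + 1) else 0) ^ 2 = Q T x := by
      unfold Q
      apply sum_congr rfl
      intro n _
      split_ifs <;> norm_num
    rw [e1, e2, e3] at h7
    exact h7
  have h7 : ∑ n ∈ range x, (if n + 1 ∈ T then ((ag T n : ℝ) + 1) else 0) = (x : ℝ) - ag T x := by linarith
  rw [h7] at h6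
  have h8 : ((x : ℝ) / 2) ^ 2 ≤ ((x : ℝ) - ag T x) ^ 2 := by
    apply pow_le_pow_left₀ (by positivity)
    linarith
  have hQ0 : 0 ≤ Q T x := by
    unfold Q
    apply sum_nonneg
    intro n _
    split_ifs <;> positivity
  have h9 : ((x : ℝ) / 2) ^ 2 ≤ 12 * (x / Real.log x) * Q T x :=
    (h8.trans h6).trans (mul_le_mul_of_nonneg_right h1 hQ0)
  have h10 : 12 * ((x : ℝ) / Real.log x) * Q T x = 12 * x * Q T x / Real.log x := by ring
  rw [h10, le_div_iff₀ h3] at h9
  have h11 : x * (1 / 48 * (x * Real.log x)) ≤ x * Q T x := by nlinarith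
  exact le_of_mul_le_mul_left h11 hx0

end Pool.Agent.J6H15.SQ
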