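import Mathlib
import Pool.Agent.J6H15.SQ.Low

/-! # The order of magnitude of the sum of the squares of the gaps: the theorem -/

set_option autoImplicit false
set_option linter.unusedSectionVars false

open MeasureTheory Filter Finset
open scoped ENNReal Topology

namespace Pool.Agent.J6H15.SQ

open Pool.Agent.R528.RM
open Pool.Agent.J6H15.SM
open Pool.Agent.J6H13.UM

theorem sq_low (θ : ℝ) (hθ : θ < 1 / 2) (P : Set ℕ)
    (hP : ∀ q : ℕ, q.Prime → q ∈ P) (z : ℕ → ℕ) (hz : Monotone z)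
    (hzθ : ∀ᶠ n : ℕ in atTop, (z n : ℝ) ≤ Real.log n ^ θ)
    {Ω : Type} {m0 : MeasurableSpace Ω} {μ : Measure Ω} [IsProbabilityMeasure μ]
    {ℱ : Filtration ℕ m0} {A : ℕ → Set Ω} (hA : ∀ n, MeasurableSet[ℱ n] (A n))
    (hcop : ∀ n, ¬ Rough P z n → A n = ∅)
    (hd : ∀ᵐ ω ∂μ, Tendsto (fun n : ℕ => dens μ ℱ A n ω * Real.log n / W P (z (n + 1)))
        (atTop ⊓ 𝓟 {n : ℕ | Rough P z (n + 1)}) (𝓝 1)) :
    ∀ᵐ ω ∂μ, ∀ᶠ x : ℕ in atTop, 1 / 48 * (x * Real.log x) ≤ Q {k | ω ∈ A k} x := by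
  classical
  obtain ⟨θ', hθ'⟩ : ∃ θ' : ℝ, θ' = max θ (1 / 4) := ⟨_, rfl⟩
  have h1 : 0 < θ' := by
    rw [hθ']
    exact lt_of_lt_of_le (by norm_num) (le_max_right _ _)
  have h2 : θ' < 1 / 2 := by
    rw [hθ']
    exact max_lt hθ (by norm_num)
  obtain ⟨C₂, hC₂, H2⟩ := cra_sum θ' 2 h1 le_rfl (by linarith)
  have hzθ' : ∀ᶠ n : ℕ in atTop, (z n : ℝ) ≤ Real.log n ^ θ' := by
    filter_upwards [hzθ, logN'.eventually_ge_atTop 1] with n h3 h4
    refine h3.trans (Real.rpow_le_rpow_of_exponent_le h4 ?_)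
    rw [hθ']
    exact le_max_left _ _
  have hV : ∀ᶠ n : ℕ in atTop, W P (z n) / Real.log n < 1 := by
    apply short P ⌈θ'⌉₊ z
    filter_upwards [hzθ', logN'.eventually_ge_atTop 1] with n h1 h2
    calc (z n : ℝ) ≤ Real.log n ^ θ' := h1
      _ ≤ Real.log n ^ ((⌈θ'⌉₊ : ℕ) : ℝ) := Real.rpow_le_rpow_of_exponent_le h2 (Nat.le_ceil θ')
      _ = _ := Real.rpow_natCast _ _
  have h3 := H2 P hP z hz hzθ'
  have hprof := profile P z hV hcop hd
  have h5 := fin_gen hA (rho1 P z) (rho1_bounds P z) hprof (blE C₂ 2) h3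
  have hblk : ∀ m : ℕ, blE C₂ 2 m = blk C₂ m := by
    intro m
    unfold blE blk
    rw [show (2 : ℝ) = ((2 : ℕ) : ℝ) by norm_num, Real.rpow_natCast]
  simp only [hblk] at h5
  filter_upwards [cnt_up (μ := μ) hA θ' h1 P z hz hzθ' hV hprof, h5] with ω k1 k2
  obtain ⟨K0, hK0⟩ := ag_leC C₂ hC₂ {k | ω ∈ A k} k2
  refine det_low_sq {k | ω ∈ A k} _ (fun x => rfl) ?_ ?_
  · filter_upwards [k1] with x hx
    refine le_trans (le_of_eq ?_) hx
    apply sum_congr rfl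
    intro n _
    by_cases h : ω ∈ A (n + 1)
    · rw [if_pos h, Set.indicator_of_mem (show n + 1 ∈ {k | ω ∈ A k} from h)]
    · rw [if_neg h, Set.indicator_of_notMem (show n + 1 ∉ {k | ω ∈ A k} from h)]
  · have g1 := (isLittleO_log_rpow_rpow_atTop (2 : ℝ) (show (0 : ℝ) < 1 by norm_num)).bound
      (show (0 : ℝ) < 1 / (4 * C₂) by positivity)
    filter_upwards [tendsto_natCast_atTop_atTop.eventually g1, logN'.eventually_ge_atTop 1,
      tendsto_natCast_atTop_atTop.eventually_ge_atTop (4 * |K0|)] with x h6 h7 h8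
    rw [Real.norm_eq_abs, Real.norm_eq_abs, abs_of_nonneg (Real.rpow_nonneg (by linarith) _),
      abs_of_nonneg (Real.rpow_nonneg (Nat.cast_nonneg x) _), Real.rpow_one, show (2 : ℝ) = ((2 : ℕ) : ℝ) by norm_num,
      Real.rpow_natCast] at h6
    have h9 := hK0 x
    have h10 : C₂ * Real.log (x : ℝ) ^ 2 ≤ x / 4 := by
      calc C₂ * Real.log (x : ℝ) ^ 2 ≤ C₂ * (1 / (4 * C₂) * x) := by gcongr
        _ = x / 4 := by field_simp
    have h11 := le_abs_self K0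
    linarith

end Pool.Agent.J6H15.SQ
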